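import Pool.Agent.Y722.ST.Prime

/-!
# Partial summation with the weights `log p`
-/

set_option autoImplicit false

namespace Pool.Agent.Y722.ST

open Finset

theorem abel_id (a f : ℕ → ℝ) (n : ℕ) : ∑ i ∈ range n, a i * f i =
    (∑ i ∈ range n, a i) * f n - ∑ i ∈ range n, (∑ j ∈ range (i + 1), a j) * (f (i + 1) - f i) := by
  induction n with
  | zero => simp
  | succ n ih =>
    rw [Finset.sum_range_succ, ih, Finset.sum_range_succ (fun i => (∑ j ∈ range (i + 1), a j) *
      (f (i + 1) - f i)), Finset.sum_range_succ a n]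
    ring

theorem abel_log (a : ℕ → ℝ) (h0 : a 0 = 0) (h1 : a 1 = 0) (F : ℝ) (T : ℕ) (hT : 2 ≤ T)
    (ha : ∀ t : ℕ, 2 ≤ t → t ≤ T → (∑ i ∈ range t, a i) ^ 2 ≤ t * Real.log t ^ 4 * F) :
    (∑ i ∈ range T, a i * Real.log i) ^ 2 ≤ 36 * (T * Real.log T ^ 6) * F := by
  have hT0 : (0 : ℝ) < T := by exact_mod_cast (by omega : 0 < T)
  have hL2 : Real.log 2 ≤ Real.log T := Real.log_le_log (by norm_num) (by exact_mod_cast hT)
  have hL : 0.69 < Real.log T := by
    have := Real.log_two_gt_d9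
    linarith
  set L := Real.log T with hLdef
  have hF : 0 ≤ F := by
    have h2 := ha T hT le_rfl
    rw [← hLdef] at h2
    by_contra hF
    push Not at hF
    have h3 : (T : ℝ) * L ^ 4 * F < 0 := mul_neg_of_pos_of_neg (by positivity) hF
    have h4 := sq_nonneg (∑ i ∈ range T, a i)
    linarith
  set s := Real.sqrt F with hs
  have hs0 : 0 ≤ s := Real.sqrt_nonneg _
  have hsF : s ^ 2 = F := Real.sq_sqrt hF
  have hb : ∀ t : ℕ, 2 ≤ t → t ≤ T → |∑ i ∈ range t, a i| ≤ Real.sqrt t * L ^ 2 * s := by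
    intro t ht htT
    have ht1 : (1 : ℝ) ≤ t := by exact_mod_cast (by omega : 1 ≤ t)
    have hlt : Real.log t ≤ L := Real.log_le_log (by linarith) (by exact_mod_cast htT)
    have hlt0 : 0 ≤ Real.log t := Real.log_nonneg ht1
    apply abs_le_of_sq_le_sq _ (by positivity)
    calc _ ≤ t * Real.log t ^ 4 * F := ha t ht htT
      _ ≤ t * L ^ 4 * F := by gcongr
      _ = (Real.sqrt t * L ^ 2 * s) ^ 2 := by
          rw [mul_pow, mul_pow, hsF, Real.sq_sqrt (by linarith)]
          ring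
  have hb' : ∀ t : ℕ, 2 ≤ t → t ≤ T → |∑ i ∈ range t, a i| ≤ Real.sqrt t * L ^ 2 * s := hb
  rw [abel_id a (fun i => Real.log i) T]
  have e1 : |(∑ i ∈ range T, a i) * Real.log T| ≤ Real.sqrt T * L ^ 3 * s := by
    rw [abs_mul, ← hLdef, abs_of_pos (by linarith : 0 < L)]
    calc _ ≤ Real.sqrt T * L ^ 2 * s * L := by
          gcongr
          exact hb T hT le_rfl
      _ = _ := by ring
  have e2 : |∑ i ∈ range T, (∑ j ∈ range (i + 1), a j) *
      (Real.log ((i + 1 : ℕ) : ℝ) - Real.log i)| ≤ 3 * (Real.sqrt T * L ^ 2 * s) := by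
    have h3 : ∀ i ∈ range T, |(∑ j ∈ range (i + 1), a j) *
        (Real.log ((i + 1 : ℕ) : ℝ) - Real.log i)| ≤
        (3 / 2 * (L ^ 2 * s)) * (1 / Real.sqrt ((i + 1 : ℕ) : ℝ)) := by
      intro i hi
      rw [Finset.mem_range] at hi
      rcases Nat.lt_or_ge i 2 with hi2 | hi2
      · have : ∑ j ∈ range (i + 1), a j = 0 := by
          interval_cases i
          · simp [h0]
          · simp [Finset.sum_range_succ, h0, h1]
        rw [this, zero_mul, abs_zero]
        positivity
      · have hi0 : (2 : ℝ) ≤ i := by exact_mod_cast hi2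
        have hsq : 0 < Real.sqrt ((i + 1 : ℕ) : ℝ) := Real.sqrt_pos.mpr (by positivity)
        have h4 : |Real.log ((i + 1 : ℕ) : ℝ) - Real.log i| ≤ 3 / 2 * (1 / ((i + 1 : ℕ) : ℝ)) := by
          rw [abs_of_nonneg (sub_nonneg.mpr (Real.log_le_log (by linarith) (by push_cast; linarith)))]
          rw [← Real.log_div (by positivity) (by positivity)]
          have h5 : ((i + 1 : ℕ) : ℝ) / i = 1 + 1 / i := by
            push_cast
            field_simp
          rw [h5]
          have h6 := Real.log_le_sub_one_of_pos (by positivity : (0 : ℝ) < 1 + 1 / i)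
          have h7 : (1 : ℝ) / i ≤ 3 / 2 * (1 / ((i + 1 : ℕ) : ℝ)) := by
            push_cast
            rw [mul_one_div, div_le_div_iff₀ (by positivity) (by positivity)]
            linarith
          linarith
        rw [abs_mul]
        calc _ ≤ Real.sqrt ((i + 1 : ℕ) : ℝ) * L ^ 2 * s * (3 / 2 * (1 / ((i + 1 : ℕ) : ℝ))) := by
              gcongr
              exact hb (i + 1) (by omega) (by omega)
          _ = (3 / 2 * (L ^ 2 * s)) * (Real.sqrt ((i + 1 : ℕ) : ℝ) / ((i + 1 : ℕ) : ℝ)) := by ring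
          _ = _ := by
              congr 1
              rw [div_eq_div_iff (by positivity) (by positivity), one_mul]
              exact Real.mul_self_sqrt (by positivity)
    refine (Finset.abs_sum_le_sum_abs _ _).trans ((Finset.sum_le_sum h3).trans ?_)
    rw [← Finset.mul_sum]
    have h8 : ∑ i ∈ range T, 1 / Real.sqrt ((i + 1 : ℕ) : ℝ) ≤ 2 * Real.sqrt T := by
      have h9 := sum_inv_sqrt' T
      rw [← Finset.range_eq_Ico, Finset.sum_range_succ'] at h9
      simpa using h9
    calc _ ≤ 3 / 2 * (L ^ 2 * s) * (2 * Real.sqrt T) := by gcongr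
      _ = _ := by ring
  have e3 : Real.sqrt T * L ^ 2 * s ≤ 5 / 3 * (Real.sqrt T * L ^ 3 * s) := by
    have : L ^ 2 ≤ 5 / 3 * L ^ 3 := by nlinarith [sq_nonneg L]
    calc Real.sqrt T * L ^ 2 * s ≤ Real.sqrt T * (5 / 3 * L ^ 3) * s := by gcongr
      _ = _ := by ring
  have e4 : |(∑ i ∈ range T, a i) * Real.log T - ∑ i ∈ range T, (∑ j ∈ range (i + 1), a j) *
      (Real.log ((i + 1 : ℕ) : ℝ) - Real.log i)| ≤ 6 * (Real.sqrt T * L ^ 3 * s) := by
    refine (abs_sub _ _).trans ?_
    linarith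
  calc _ ≤ (6 * (Real.sqrt T * L ^ 3 * s)) ^ 2 := by
        rw [← sq_abs]
        gcongr
    _ = _ := by
        rw [mul_pow, mul_pow, mul_pow, hsF, Real.sq_sqrt hT0.le]
        ring

end Pool.Agent.Y722.ST
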