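import Pool.Agent.Y722.ST.Lin
import Pool.Agent.Y722.ST.Abel
import Pool.Agent.Y722.LS.PlanesSmooth

/-!
# Linear systems of surfaces in `ℙ³`: the traces on `H²` over the primes
-/

set_option autoImplicit false
set_option linter.unusedSectionVars false

namespace Pool.Agent.Y722.ST

open Finset Pool.Agent.Y722.HS Pool.Agent.Y722.LS Pool.Agent.Y722.PC Pool.Agent.Y722.TM
  Pool.Agent.Y722.TP

section
variable {ι : Type} [Fintype ι] [DecidableEq ι]

open Classical in
/-- The sum of `w_p (b_p / p - (1 + e)) log p`, `b_p = #X_c(𝔽_p) - 1 - p²`, over the primes `p < T` at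
which the surface `X_c : ∑ c i f i = 0` is smooth. -/
noncomputable def dvS (f : ι → MvPolynomial (Fin (3 + 1)) ℤ) (e : ℝ) (w : ℕ → ℝ) (c : ι → ℤ)
    (T : ℕ) : ℝ :=
  ∑ p ∈ range T with Good (n := 3) f c p,
    w p * ((xn (n := 3) f p (red p c) - 1 - (p : ℝ) ^ 2) / p - (1 + e)) * Real.log p

theorem sepK_two {n : ℕ} {f : ι → MvPolynomial (Fin (n + 1)) ℤ} {p : ℕ} (h : Separates f p) :
    SepK 2 f p := by
  classical
  rintro x Y hY hxY ⟨i, hi⟩
  rcases Finset.eq_empty_or_nonempty Y with rfl | ⟨y, hy⟩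
  · refine ⟨Pi.single i 1, ?_, fun y hy => absurd hy (Finset.notMem_empty _)⟩
    rw [eval_lform, lval_single, one_mul]
    exact hi
  · obtain ⟨c, h1, h2⟩ := h x y (hxY y hy) ⟨i, hi⟩
    refine ⟨c, h1, fun z hz => ?_⟩
    have hcard : Y.card ≤ 1 := by omega
    rw [Finset.card_le_one.mp hcard z hz y hy]
    exact h2

theorem tauberSurf {d : ℕ} (hd : 1 ≤ d) (f : ι → MvPolynomial (Fin (3 + 1)) ℤ)
    (hf : ∀ i, (f i).IsHomogeneous d) (c0 : ι → ℤ)
    (hs : IsSmooth (lform (n := 3) f (fun i => (c0 i : ℂ)))) (p0 : ℕ)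
    (hsep : ∀ p : ℕ, p.Prime → p0 ≤ p → Separates (n := 3) f p) (e C0 : ℝ)
    (hZ : ∀ p : ℕ, p.Prime → p0 ≤ p → |zn (n := 3) f p - e * p| ≤ C0 * Real.sqrt p) :
    ∃ C : ℝ, ∀ w : ℕ → ℝ, (∀ p, |w p| ≤ 1) → ∀ (H : ℕ) (T : (ι → ℤ) → ℕ),
      (∀ c, 2 ≤ T c ∧ 8 * T c ^ 4 ≤ H) →
      ∑ c ∈ box ι H, dvS f e w c (T c) ^ 2 / (T c * Real.log (T c) ^ 6) ≤
        C * (box ι H).card := by
  classical
  obtain ⟨P, hP0, hP⟩ := exists_disc (n := 3) f hd hf c0 hs
  set u : ℕ → ℝ := fun p => 1 + (p : ℝ) ^ 2 + (1 + e) * p with hu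
  have hsq : ∀ p : ℕ, Real.sqrt ((p : ℝ) ^ (3 - 1)) = p := fun p => by
    rw [show 3 - 1 = 2 by norm_num, Real.sqrt_sq (by positivity)]
  obtain ⟨K, hK⟩ := dat_yy (n := 3) (by norm_num) f hf p0 1
    (fun p hp hge => sepK_two (hsep p hp hge)) u (|e| + |C0|)
    (by
      intro p hp hge
      have hp1 : (1 : ℝ) ≤ p := by exact_mod_cast hp.one_lt.le
      have h1 := (abs_le.mp (hZ p hp hge)).2
      have h2 : Real.sqrt p ≤ p := by
        rw [Real.sqrt_le_left (by linarith)]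
        nlinarith
      have h3 : (((3 : ℕ) : ℝ) - 1) / 2 = 1 := by norm_num
      rw [h3, Real.rpow_one]
      have h4 : C0 * Real.sqrt p ≤ |C0| * p := by
        calc C0 * Real.sqrt p ≤ |C0| * Real.sqrt p := by
              gcongr
              exact le_abs_self _
          _ ≤ _ := by gcongr
      have h5 : e * p ≤ |e| * p := by
        gcongr
        exact le_abs_self _
      linarith)
    (by
      intro p hp hge
      have hp2 : (2 : ℝ) ≤ p := by exact_mod_cast hp.two_le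
      have hp1 : (0 : ℝ) < (p : ℝ) - 1 := by linarith
      have h1 : zn (n := 3) f p + ((p : ℝ) ^ 3 - 1) / ((p : ℝ) - 1) - u p =
          zn (n := 3) f p - e * p := by
        rw [hu]
        field_simp
        ring
      have h3 : ((3 : ℕ) : ℝ) / 2 - 1 = 1 / 2 := by norm_num
      rw [h1, h3, ← Real.sqrt_eq_rpow]
      refine (hZ p hp hge).trans ?_
      gcongr
      have := le_abs_self C0
      have := abs_nonneg e
      linarith) 1 le_rfl
  obtain ⟨C, hC0, hC⟩ := effective_weights (κ := Unit) (fun _ => hK) P c0 hP0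
  refine ⟨36 * C, fun w hw H T hT => ?_⟩
  obtain ⟨Φ, hΦ0, hΦ, hΦ'⟩ := hC (fun _ => w) (fun _ => hw) H
  have h1 : ∀ c ∈ box ι H, dvS f e w c (T c) ^ 2 / (T c * Real.log (T c) ^ 6) ≤ 36 * Φ c := by
    intro c _
    obtain ⟨h2, h3⟩ := hT c
    have hT0 : (0 : ℝ) < T c := by exact_mod_cast (by omega : 0 < T c)
    have hl : 0 < Real.log (T c) := Real.log_pos (by exact_mod_cast (by omega : 1 < T c))
    set a : ℕ → ℝ := fun p => if p.Prime ∧ Good (n := 3) f c p then
      w p * (yy (n := 3) f u p (red p c) ^ 1 - gm 1) - 0 else 0 with ha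
    have e1 : dvS f e w c (T c) = ∑ p ∈ range (T c), a p * Real.log p := by
      rw [dvS, Finset.sum_filter]
      refine Finset.sum_congr rfl fun p _ => ?_
      by_cases hg : Good (n := 3) f c p
      · have hp : p.Prime := hg.1
        have hp0 : (p : ℝ) ≠ 0 := by exact_mod_cast hp.ne_zero
        have hgm : (gm 1 : ℝ) = 0 := by norm_num [gm]
        simp only [ha, if_pos hg, if_pos (⟨hp, hg⟩ : p.Prime ∧ Good (n := 3) f c p), hgm, yy,
          hsq, hu]
        field_simp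
        ring
      · simp only [ha, if_neg hg, if_neg (fun h : p.Prime ∧ Good (n := 3) f c p => hg h.2),
          zero_mul]
    have h5 := abel_log a (by simp [ha, Nat.not_prime_zero]) (by simp [ha, Nat.not_prime_one])
      (Φ c) (T c) h2 (by
      intro t ht htT
      have h6 := hΦ' c (Good (n := 3) f c) (fun p hp _ hb => good_of hP c p hp hb) () t ht (by
          have : t ^ 4 ≤ T c ^ 4 := Nat.pow_le_pow_left htT 4
          omega)
      have e2 : ∑ i ∈ range t, a i =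
          DD (fun p c => w p * (yy (n := 3) f u p c ^ 1 - gm 1)) 0 (Good (n := 3) f c) c t := by
        rw [DD]
      rw [e2]
      exact h6)
    rw [e1, div_le_iff₀ (by positivity)]
    refine h5.trans (le_of_eq ?_)
    ring
  refine (Finset.sum_le_sum h1).trans ?_
  rw [← Finset.mul_sum]
  rw [EB, div_le_iff₀ (by positivity)] at hΦ
  rw [card_box]
  linarith

end

/-- Surfaces of degree `e + k + 1` that contain the `e` disjoint lines `x_i = t x_{2 + i}`. -/
theorem tauberLines (e k : ℕ) : ∃ C : ℝ, ∀ w : ℕ → ℝ, (∀ p, |w p| ≤ 1) → ∀ (H : ℕ)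
    (T : ((Fin e → Fin (1 + 1)) × Mon (2 * 1 + 1) (k + 1) → ℤ) → ℕ),
      (∀ c, 2 ≤ T c ∧ 8 * T c ^ 4 ≤ H) →
      ∑ c ∈ box ((Fin e → Fin (1 + 1)) × Mon (2 * 1 + 1) (k + 1)) H,
        dvS (pf 1 e (k + 1)) e w c (T c) ^ 2 / (T c * Real.log (T c) ^ 6) ≤
        C * (box ((Fin e → Fin (1 + 1)) × Mon (2 * 1 + 1) (k + 1)) H).card := by
  refine tauberSurf (d := e + (k + 1)) (by omega) (pf 1 e (k + 1)) (pf_hom 1 e (k + 1))
    (cs 1 e (k + 1)) (smooth_cs e (k + 1) (by omega)) e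
    (fun p hp _ => by have := Fact.mk hp; exact separates_pf e k p) e (2 * e)
    (fun p hp h => ?_)
  have h1 := zc_pf (m := 1) (e := e) (k := k + 1) p hp h
  have h2 : (((1 : ℕ) : ℝ) - 1 / 2) = 1 / 2 := by norm_num
  rw [h2, ← Real.sqrt_eq_rpow, pow_one] at h1
  exact h1

end Pool.Agent.Y722.ST
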