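import Pool.Agent.Y722.ST.Prime
import Pool.Agent.Y722.PC.Products

/-!
# Partial sums over the primes of functions of the reduction of an integral vector

`Y p` is a function on `(ZMod p)^ι` with bounded second moments whose mean is `m` up to `K / √p`.  For
`c` in a box of side `H` the sums of `Y p (c mod p) - m` over the primes below `T` are `O(√T log² T)`,
for all `T ≤ (H/8)^{1/4}` at the same time, in mean square over the box; also if the sum is extended only
over the primes with `g p`, where `g p` holds if `p` does not divide `P(c)`.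
-/

set_option autoImplicit false
set_option linter.unusedSectionVars false

namespace Pool.Agent.Y722.ST

open Finset Pool.Agent.Y722.HS Pool.Agent.Y722.LS Pool.Agent.Y722.PC

variable {ι : Type} [Fintype ι] [DecidableEq ι]

/-- Functions of the reduction with bounded second moments and means close to `m`. -/
structure Dat (K : ℝ) (p0 : ℕ) (Y : ∀ p : ℕ, (ι → ZMod p) → ℝ) (m : ℝ) : Prop where
  K0 : 1 ≤ K
  sq : ∀ (p : ℕ) [Fact p.Prime], p0 ≤ p → EM p (fun c => Y p c ^ 2) ≤ K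
  mean : ∀ (p : ℕ) [Fact p.Prime], p0 ≤ p → |EM p (fun c => Y p c) - m| ≤ K / Real.sqrt p

open Classical in
/-- The mean of `Y p`. -/
noncomputable def avg (Y : ∀ p : ℕ, (ι → ZMod p) → ℝ) (p : ℕ) : ℝ :=
  if h : p.Prime then
    haveI := Fact.mk h
    EM p (fun c : ι → ZMod p => Y p c)
  else 0

theorem avg_eq (Y : ∀ p : ℕ, (ι → ZMod p) → ℝ) (p : ℕ) [hp : Fact p.Prime] :
    avg Y p = EM p (fun c : ι → ZMod p => Y p c) := by
  unfold avg
  rw [dif_pos hp.out]

theorem EM_sub_avg (p : ℕ) [NeZero p] (g : (ι → ZMod p) → ℝ) :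
    EM p (fun c => g c - EM p g) = 0 := by
  have h1 : (fun c => g c - EM p g) = fun c => g c + (-EM p g) := by
    funext c; ring
  rw [h1, EM_add, EM_const, add_neg_cancel]

theorem EM_sub_avg_sq (p : ℕ) [NeZero p] (g : (ι → ZMod p) → ℝ) :
    EM p (fun c => (g c - EM p g) ^ 2) ≤ EM p (fun c => g c ^ 2) := by
  have h1 : (fun c => (g c - EM p g) ^ 2) =
      fun c => g c ^ 2 + (-(2 * EM p g) * g c + EM p g ^ 2) := by
    funext c; ring
  have h2 : EM p (fun c => g c) = EM p g := rfl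
  rw [h1, EM_add, EM_add, EM_mul, EM_const, h2]
  nlinarith [sq_nonneg (EM p g)]

/-- The centred function. -/
noncomputable def GG (Y : ∀ p : ℕ, (ι → ZMod p) → ℝ) (p0 p : ℕ) (c : ι → ZMod p) : ℝ :=
  if p < p0 then 0 else Y p c - avg Y p

/-- The function on the bad set. -/
noncomputable def VV (P : MvPolynomial ι ℤ) (Y : ∀ p : ℕ, (ι → ZMod p) → ℝ) (p0 p : ℕ)
    (c : ι → ZMod p) : ℝ :=
  if p < p0 then 0 else BZ P p c * |Y p c - avg Y p|

theorem BZ_cases (P : MvPolynomial ι ℤ) (p : ℕ) (c : ι → ZMod p) :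
    BZ P p c = 0 ∨ BZ P p c = 1 := by
  unfold BZ
  split_ifs <;> simp

theorem BZ_nonneg (P : MvPolynomial ι ℤ) (p : ℕ) (c : ι → ZMod p) : 0 ≤ BZ P p c := by
  rcases BZ_cases P p c with h | h <;> rw [h]
  norm_num

theorem cen {K m : ℝ} {p0 : ℕ} {Y : ∀ p : ℕ, (ι → ZMod p) → ℝ} (h : Dat K p0 Y m) :
    Cen K (GG Y p0) := by
  refine ⟨h.K0, ?_, ?_⟩
  · intro p hpF
    by_cases hlt : p < p0
    · have h1 : (fun c : ι → ZMod p => GG Y p0 p c ^ 2) = fun _ => 0 := by
        funext c; simp [GG, hlt]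
      rw [h1, EM_const]
      linarith [h.K0]
    · have h1 : (fun c : ι → ZMod p => GG Y p0 p c ^ 2) =
          fun c => (Y p c - EM p (fun c => Y p c)) ^ 2 := by
        funext c
        rw [GG, if_neg hlt, avg_eq]
      rw [h1]
      exact (EM_sub_avg_sq (ι := ι) p (fun c => Y p c)).trans (h.sq p (by omega))
  · intro p hpF
    by_cases hlt : p < p0
    · have h1 : (fun c : ι → ZMod p => GG Y p0 p c) = fun _ => 0 := by
        funext c; simp [GG, hlt]
      rw [h1, EM_const]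
    · have h1 : (fun c : ι → ZMod p => GG Y p0 p c) =
          fun c => (Y p c - EM p (fun c => Y p c)) := by
        funext c
        rw [GG, if_neg hlt, avg_eq]
      rw [h1]
      exact EM_sub_avg (ι := ι) p (fun c => Y p c)

theorem pos {K m : ℝ} {p0 : ℕ} {Y : ∀ p : ℕ, (ι → ZMod p) → ℝ} (h : Dat K p0 Y m)
    (P : MvPolynomial ι ℤ) (c0 : ι → ℤ) (hP : MvPolynomial.eval c0 P ≠ 0) :
    Pos (K + (P.totalDegree + |(MvPolynomial.eval c0 P : ℝ)|)) (VV P Y p0) := by
  have hK := h.K0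
  set A : ℝ := P.totalDegree + |(MvPolynomial.eval c0 P : ℝ)| with hA
  have hA0 : 0 ≤ A := by positivity
  refine ⟨by linarith, ?_, ?_, ?_⟩
  · intro p c
    unfold VV
    split_ifs
    · exact le_rfl
    · exact mul_nonneg (BZ_nonneg P p c) (abs_nonneg _)
  · intro p hpF
    by_cases hlt : p < p0
    · have h1 : (fun c : ι → ZMod p => VV P Y p0 p c ^ 2) = fun _ => 0 := by
        funext c; simp [VV, hlt]
      rw [h1, EM_const]
      linarith
    · refine (EM_mono p _ (fun c => (Y p c - EM p (fun c => Y p c)) ^ 2) fun c => ?_).trans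
        (((EM_sub_avg_sq (ι := ι) p (fun c => Y p c)).trans (h.sq p (by omega))).trans
          (by linarith))
      rw [VV, if_neg hlt, avg_eq, mul_pow, sq_abs]
      rcases BZ_cases P p c with h1 | h1 <;> rw [h1]
      · rw [zero_pow two_ne_zero, zero_mul]
        positivity
      · rw [one_pow, one_mul]
  · intro p hpF
    have hp0 : (0 : ℝ) < p := by exact_mod_cast hpF.out.pos
    have hs0 : 0 < Real.sqrt p := Real.sqrt_pos.mpr hp0
    by_cases hlt : p < p0
    · have h1 : (fun c : ι → ZMod p => VV P Y p0 p c) = fun _ => 0 := by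
        funext c; simp [VV, hlt]
      rw [h1, EM_const]
      positivity
    · have h2 : EM p (fun c : ι → ZMod p => VV P Y p0 p c) ≤
          EM p (fun c => (Real.sqrt p / 2) * BZ P p c + (1 / (2 * Real.sqrt p)) *
            (Y p c - EM p (fun c => Y p c)) ^ 2) := by
        refine EM_mono p _ _ fun c => ?_
        rw [VV, if_neg hlt, avg_eq]
        set x := Y p c - EM p (fun c => Y p c)
        rcases BZ_cases P p c with h1 | h1 <;> rw [h1]
        · rw [zero_mul]
          positivity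
        · have h3 : 0 ≤ (Real.sqrt p - |x|) ^ 2 := sq_nonneg _
          have h4 : Real.sqrt p / 2 * 1 + 1 / (2 * Real.sqrt p) * x ^ 2 =
              (Real.sqrt p ^ 2 + |x| ^ 2) / (2 * Real.sqrt p) := by
            rw [sq_abs]
            field_simp
          rw [one_mul, h4, le_div_iff₀ (by positivity)]
          nlinarith
      refine h2.trans ?_
      rw [EM_add, EM_mul, EM_mul]
      have h5 := EM_BZ P c0 hP p
      have h6 := (EM_sub_avg_sq (ι := ι) p (fun c => Y p c)).trans (h.sq p (by omega))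
      have h7 : EM p (fun c : ι → ZMod p => BZ P p c) ≤ A / p := h5
      calc _ ≤ Real.sqrt p / 2 * (A / p) + 1 / (2 * Real.sqrt p) * K := by gcongr
        _ = (A + K) / (2 * Real.sqrt p) := by
            have h8 : (p : ℝ) = Real.sqrt p * Real.sqrt p := (Real.mul_self_sqrt hp0.le).symm
            conv_lhs => rw [h8]
            rw [Real.sqrt_mul_self hs0.le]
            field_simp
        _ ≤ _ := by
            rw [div_le_div_iff₀ (by positivity) hs0]
            nlinarith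

open Classical in
/-- The partial sum over the primes with `g p`. -/
noncomputable def DD (Y : ∀ p : ℕ, (ι → ZMod p) → ℝ) (m : ℝ) (g : ℕ → Prop) (c : ι → ℤ)
    (T : ℕ) : ℝ :=
  ∑ p ∈ range T, if p.Prime ∧ g p then Y p (red p c) - m else 0

theorem bound_small (p0 : ℕ) (Y : ∀ p : ℕ, (ι → ZMod p) → ℝ) (m : ℝ) :
    ∃ M : ℝ, 0 ≤ M ∧ ∀ p : ℕ, p.Prime → p < p0 → ∀ c : ι → ZMod p, |Y p c - m| ≤ M := by
  have h1 : ∀ p : ℕ, ∃ M : ℝ, 0 ≤ M ∧ (p.Prime → ∀ c : ι → ZMod p, |Y p c - m| ≤ M) := by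
    intro p
    by_cases hp : p.Prime
    · have := Fact.mk hp
      refine ⟨∑ c : ι → ZMod p, |Y p c - m|, Finset.sum_nonneg fun _ _ => abs_nonneg _,
        fun _ c => ?_⟩
      exact Finset.single_le_sum (f := fun c => |Y p c - m|) (fun _ _ => abs_nonneg _)
        (Finset.mem_univ c)
    · exact ⟨0, le_rfl, fun h => absurd h hp⟩
  choose M hM0 hM using h1
  refine ⟨∑ p ∈ range p0, M p, Finset.sum_nonneg fun _ _ => hM0 _, fun p hp hlt c => ?_⟩
  exact (hM p hp c).trans (Finset.single_le_sum (f := M) (fun _ _ => hM0 _)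
    (Finset.mem_range.mpr hlt))

theorem sum_inv_sqrt_le (T : ℕ) : ∑ i ∈ range T, 1 / Real.sqrt i ≤ 2 * Real.sqrt T := by
  have := sum_inv_sqrt T
  rwa [Finset.range_eq_Ico]

/-- The pointwise decomposition. -/
theorem DD_le {K m M : ℝ} {p0 : ℕ} {Y : ∀ p : ℕ, (ι → ZMod p) → ℝ} (h : Dat K p0 Y m)
    (P : MvPolynomial ι ℤ) (hM0 : 0 ≤ M)
    (hM : ∀ p : ℕ, p.Prime → p < p0 → ∀ c : ι → ZMod p, |Y p c - m| ≤ M) (c : ι → ℤ)
    (g : ℕ → Prop) (hg : ∀ p : ℕ, p.Prime → p0 ≤ p → BZ P p (red p c) = 0 → g p) (T : ℕ) :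
    |DD Y m g c T| ≤ |∑ i ∈ range T, XP (GG Y p0) i c| + ∑ i ∈ range T, XP (VV P Y p0) i c +
      (2 * K * Real.sqrt T + M * p0) := by
  classical
  have hK := h.K0
  have h1 : ∀ p ∈ range T, |(if p.Prime ∧ g p then Y p (red p c) - m else 0) -
      XP (GG Y p0) p c| ≤ XP (VV P Y p0) p c + (K * (1 / Real.sqrt p) +
        (if p < p0 then M else 0)) := by
    intro p _
    by_cases hp : p.Prime
    · have := Fact.mk hp
      simp only [XP, hp, if_true, true_and]
      have hK0 : 0 ≤ K * (1 / Real.sqrt p) := by positivity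
      by_cases hlt : p < p0
      · simp only [GG, VV, hlt, if_true, sub_zero, zero_add]
        split_ifs
        · have := hM p hp hlt (red p c)
          linarith
        · rw [abs_zero]
          linarith
      · simp only [GG, VV, hlt, if_false, add_zero]
        have hmean := h.mean p (by omega)
        rw [← avg_eq] at hmean
        have hmean' : |avg Y p - m| ≤ K * (1 / Real.sqrt p) := by rwa [mul_one_div]
        split_ifs with hgp
        · have e : Y p (red p c) - m - (Y p (red p c) - avg Y p) = avg Y p - m := by ring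
          rw [e]
          have := mul_nonneg (BZ_nonneg P p (red p c)) (abs_nonneg (Y p (red p c) - avg Y p))
          linarith
        · have hB : BZ P p (red p c) = 1 := by
            rcases BZ_cases P p (red p c) with h0 | h0
            · exact absurd (hg p hp (by omega) h0) hgp
            · exact h0
          rw [hB, one_mul, zero_sub, abs_neg]
          linarith
    · simp only [XP, hp, if_false, false_and, sub_zero, abs_zero, zero_add]
      positivity
  have h2 : |DD Y m g c T - ∑ i ∈ range T, XP (GG Y p0) i c| ≤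
      ∑ p ∈ range T, (XP (VV P Y p0) p c + (K * (1 / Real.sqrt p) +
        (if p < p0 then M else 0))) := by
    rw [DD, ← Finset.sum_sub_distrib]
    exact (Finset.abs_sum_le_sum_abs _ _).trans (Finset.sum_le_sum h1)
  have h3 : ∑ p ∈ range T, (XP (VV P Y p0) p c + (K * (1 / Real.sqrt p) +
      (if p < p0 then M else 0))) ≤
      ∑ i ∈ range T, XP (VV P Y p0) i c + (2 * K * Real.sqrt T + M * p0) := by
    rw [Finset.sum_add_distrib, Finset.sum_add_distrib, ← Finset.mul_sum]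
    have h4 := sum_inv_sqrt_le T
    have h5 : ∑ p ∈ range T, (if p < p0 then M else 0) ≤ M * p0 := by
      rw [← Finset.sum_filter, Finset.sum_const, nsmul_eq_mul, mul_comm]
      apply mul_le_mul_of_nonneg_left _ hM0
      have : ({p ∈ range T | p < p0} : Finset ℕ).card ≤ (range p0).card := by
        apply Finset.card_le_card
        intro p hp
        rw [Finset.mem_filter] at hp
        exact Finset.mem_range.mpr hp.2
      rw [Finset.card_range] at this
      exact_mod_cast this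
    have h6 : K * ∑ i ∈ range T, 1 / Real.sqrt i ≤ K * (2 * Real.sqrt T) := by gcongr
    linarith
  have h7 := abs_sub_abs_le_abs_sub (DD Y m g c T) (∑ i ∈ range T, XP (GG Y p0) i c)
  linarith

theorem one_le_log (T : ℕ) (hT : 2 ≤ T) : 1 ≤ 5 * Real.log T ^ 4 := by
  have h1 : Real.log 2 ≤ Real.log T := Real.log_le_log (by norm_num) (by exact_mod_cast hT)
  have h2 := Real.log_two_gt_d9
  have h3 : (0.69 : ℝ) ^ 4 ≤ Real.log T ^ 4 := by
    apply pow_le_pow_left₀ (by norm_num)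
    linarith
  norm_num at h3
  linarith

theorem final_ineq {a b e e' D T L K M1 F1 F2 : ℝ} (_ : 0 ≤ a) (_ : 0 ≤ b)
    (_ : 0 ≤ e) (_ : 0 ≤ e') (hT : 1 ≤ T) (h7 : 1 ≤ 5 * L) (hD0 : 0 ≤ D)
    (h3 : D ≤ a + b + (e + e')) (ha : a ^ 2 ≤ 162 * (T * L) * F1)
    (hb : b ^ 2 ≤ 162 * (T * L) * F2) (he : e ^ 2 = 4 * K ^ 2 * T) (hM : e' = M1) :
    D ^ 2 ≤ T * L * ((4 * 162) * F1 + (4 * 162) * F2 + 5 * (4 * K ^ 2 * 8 + 8 * M1 ^ 2)) := by
  have h4 : D ^ 2 ≤ (a + b + (e + e')) ^ 2 := by gcongr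
  have h5 : (a + b + (e + e')) ^ 2 ≤ 4 * a ^ 2 + 4 * b ^ 2 + (8 * e ^ 2 + 8 * e' ^ 2) := by
    nlinarith [sq_nonneg (a - b), sq_nonneg (a - e), sq_nonneg (a - e'), sq_nonneg (b - e),
      sq_nonneg (b - e'), sq_nonneg (e - e')]
  have h6 : 0 ≤ 4 * K ^ 2 * 8 + 8 * M1 ^ 2 := by positivity
  have h8 : 8 * e ^ 2 + 8 * e' ^ 2 ≤ (4 * K ^ 2 * 8 + 8 * M1 ^ 2) * (T * 1) := by
    rw [he, hM]
    have : M1 ^ 2 ≤ M1 ^ 2 * T := le_mul_of_one_le_right (sq_nonneg _) hT
    linarith
  have h9 : (4 * K ^ 2 * 8 + 8 * M1 ^ 2) * (T * 1) ≤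
      (4 * K ^ 2 * 8 + 8 * M1 ^ 2) * (T * (5 * L)) := by gcongr
  linarith

/-- **Partial sums over the primes in mean square, all lengths at the same time.** -/
theorem effective (K M : ℝ) (hK : 1 ≤ K) (hM0 : 0 ≤ M) (p0 : ℕ)
    (P : MvPolynomial ι ℤ) (c0 : ι → ℤ) (hP : MvPolynomial.eval c0 P ≠ 0) :
    ∃ C : ℝ, 0 ≤ C ∧ ∀ (Y : ∀ p : ℕ, (ι → ZMod p) → ℝ) (m : ℝ), Dat K p0 Y m →
      (∀ p : ℕ, p.Prime → p < p0 → ∀ c : ι → ZMod p, |Y p c - m| ≤ M) →
      ∀ H : ℕ, ∃ Φ : (ι → ℤ) → ℝ, (∀ c, 0 ≤ Φ c) ∧ EB H Φ ≤ C ∧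
      ∀ (c : ι → ℤ) (g : ℕ → Prop),
        (∀ p : ℕ, p.Prime → p0 ≤ p → BZ P p (red p c) = 0 → g p) →
        ∀ T : ℕ, 2 ≤ T → 8 * T ^ 4 ≤ H →
          DD Y m g c T ^ 2 ≤ T * Real.log T ^ 4 * Φ c := by
  set K' : ℝ := K + (P.totalDegree + |(MvPolynomial.eval c0 P : ℝ)|) with hK'
  have hA0 : (0 : ℝ) ≤ P.totalDegree + |(MvPolynomial.eval c0 P : ℝ)| := by positivity
  have hK'0 : 1 ≤ K' := by linarith
  set C1 : ℝ := 2 ^ Fintype.card ι * K + 2 ^ Fintype.card ι * K ^ 2 with hC1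
  set C2 : ℝ := 2 ^ Fintype.card ι * K' + (2 ^ Fintype.card ι * K' ^ 2 + 4 * K' ^ 2) with hC2
  have hC10 : 0 ≤ C1 := by positivity
  have hC20 : 0 ≤ C2 := by positivity
  set E : ℝ := 5 * (4 * K ^ 2 * 8 + 8 * (M * p0) ^ 2) with hE
  have hE0 : 0 ≤ E := by positivity
  refine ⟨(4 * 162) * (2 * C1) + (4 * 162) * (2 * C2) + E, by positivity, fun Y m h hM H => ?_⟩
  have hcen := cen h
  have hpos := pos h P c0 hP
  set k0 : ℕ := Nat.log 16 (2 * H + 1) with hk0
  have hk1 : (2 ^ k0) ^ 4 ≤ 2 * H + 1 := by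
    have h1 : 16 ^ k0 ≤ 2 * H + 1 := Nat.pow_log_le_self 16 (by omega)
    calc (2 ^ k0) ^ 4 = 16 ^ k0 := by rw [← pow_mul, mul_comm, pow_mul]; norm_num
      _ ≤ _ := h1
  have hkT : ∀ T : ℕ, 8 * T ^ 4 ≤ H → T < 2 ^ k0 := by
    intro T hT
    have h1 : 2 * H + 1 < 16 ^ (k0 + 1) := Nat.lt_pow_succ_log_self (by norm_num) _
    have h2 : 16 ^ (k0 + 1) = 16 * (2 ^ k0) ^ 4 := by
      rw [pow_succ, ← pow_mul, mul_comm k0 4, pow_mul]
      norm_num
      ring
    have h3 : T ^ 4 < (2 ^ k0) ^ 4 := by omega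
    exact lt_of_pow_lt_pow_left₀ 4 (by positivity) h3
  obtain ⟨Φ1, hΦ10, hΦ1, hΦ1'⟩ := max_sq (X := XP (GG Y p0)) hC10 H k0 (by
    intro a b hab hb
    exact hcen.SI_sq H a b hab ((Nat.pow_le_pow_left hb 4).trans hk1))
  obtain ⟨Φ2, hΦ20, hΦ2, hΦ2'⟩ := max_nonneg (X := XP (VV P Y p0)) hC20 H k0 (by
    intro i c
    unfold XP
    split_ifs
    · exact hpos.nn _ _
    · exact le_rfl) (by
    intro b hb
    exact hpos.SI_sq H b ((Nat.pow_le_pow_left hb 4).trans hk1))
  refine ⟨fun c => (4 * 162) * Φ1 c + (4 * 162) * Φ2 c + E, ?_, ?_, ?_⟩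
  · intro c
    have := hΦ10 c
    have := hΦ20 c
    positivity
  · rw [EB_add, EB_add, EB_mul, EB_mul, EB_const]
    gcongr
  · intro c g hg T hT hTH
    have hTk := hkT T hTH
    have h1 := hΦ1' c T hT hTk
    have h2 := hΦ2' c T hT hTk
    have h3 := DD_le h P hM0 hM c g hg T
    have hb0 : 0 ≤ ∑ i ∈ range T, XP (VV P Y p0) i c := Finset.sum_nonneg fun i _ => by
      unfold XP
      split_ifs
      · exact hpos.nn _ _
      · exact le_rfl
    have hT0 : (1 : ℝ) ≤ T := by exact_mod_cast (by omega : 1 ≤ T)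
    have h6 : (2 * K * Real.sqrt T) ^ 2 = 4 * K ^ 2 * T := by
      rw [mul_pow, Real.sq_sqrt (by positivity)]
      ring
    have h9 := final_ineq (abs_nonneg _) hb0 (by positivity : 0 ≤ 2 * K * Real.sqrt T)
      (by positivity : 0 ≤ M * (p0 : ℝ)) hT0 (one_le_log T hT) (abs_nonneg _) h3
      (by rw [sq_abs]; exact h1) h2 h6 rfl
    rwa [sq_abs] at h9

theorem effective_weights {κ : Type} [Fintype κ] {K : κ → ℝ} {m : κ → ℝ} {p0 : ℕ}
    {Y : κ → ∀ p : ℕ, (ι → ZMod p) → ℝ} (h : ∀ k, Dat (K k) p0 (Y k) (m k))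
    (P : MvPolynomial ι ℤ) (c0 : ι → ℤ) (hP : MvPolynomial.eval c0 P ≠ 0) :
    ∃ C : ℝ, 0 ≤ C ∧ ∀ w : κ → ℕ → ℝ, (∀ k p, |w k p| ≤ 1) →
      ∀ H : ℕ, ∃ Φ : (ι → ℤ) → ℝ, (∀ c, 0 ≤ Φ c) ∧ EB H Φ ≤ C ∧
      ∀ (c : ι → ℤ) (g : ℕ → Prop),
        (∀ p : ℕ, p.Prime → p0 ≤ p → BZ P p (red p c) = 0 → g p) →
        ∀ (k : κ) (T : ℕ), 2 ≤ T → 8 * T ^ 4 ≤ H →
          DD (fun p c => w k p * (Y k p c - m k)) 0 g c T ^ 2 ≤ T * Real.log T ^ 4 * Φ c := by
  choose M hM0 hM using fun k => bound_small p0 (Y k) (m k)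
  have hK : ∀ k, 1 ≤ 2 * K k + 2 * m k ^ 2 := by
    intro k
    have := (h k).K0
    nlinarith [sq_nonneg (m k)]
  choose C hC0 hC using fun k => effective (2 * K k + 2 * m k ^ 2) (M k) (hK k) (hM0 k) p0 P c0 hP
  refine ⟨∑ k, C k, Finset.sum_nonneg fun _ _ => hC0 _, fun w hw H => ?_⟩
  have hdat : ∀ k, Dat (2 * K k + 2 * m k ^ 2) p0 (fun p c => w k p * (Y k p c - m k)) 0 := by
    intro k
    refine ⟨hK k, ?_, ?_⟩
    · intro p hpF hge
      refine (EM_mono p _ (fun c => 2 * Y k p c ^ 2 + 2 * m k ^ 2) fun c => ?_).trans ?_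
      · have h1 : w k p ^ 2 ≤ 1 := by
          rw [← sq_abs]
          have := hw k p
          nlinarith [abs_nonneg (w k p)]
        have h2 : (w k p * (Y k p c - m k)) ^ 2 ≤ 1 * (Y k p c - m k) ^ 2 := by
          rw [mul_pow]
          gcongr
        nlinarith [sq_nonneg (Y k p c + m k)]
      · rw [EM_add, EM_mul, EM_const]
        have := (h k).sq p hge
        linarith
    · intro p hpF hge
      have h1 : (fun c : ι → ZMod p => w k p * (Y k p c - m k)) =
          fun c => w k p * (Y k p c + -m k) := by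
        funext c; ring
      rw [h1, EM_mul, EM_add, EM_const, sub_zero, abs_mul]
      have h2 := (h k).mean p hge
      rw [sub_eq_add_neg] at h2
      have hK1 := (h k).K0
      calc |w k p| * |EM p (fun c => Y k p c) + -m k| ≤ 1 * (K k / Real.sqrt p) := by
            gcongr
            exact hw k p
        _ ≤ _ := by
            rw [one_mul]
            gcongr
            nlinarith [sq_nonneg (m k)]
  have hsm : ∀ (k : κ) (p : ℕ), p.Prime → p < p0 → ∀ c : ι → ZMod p,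
      |w k p * (Y k p c - m k) - 0| ≤ M k := by
    intro k p hp hlt c
    rw [sub_zero, abs_mul]
    have := hM k p hp hlt c
    calc _ ≤ 1 * M k := by
          gcongr
          exact hw k p
      _ = _ := one_mul _
  choose Φ hΦ0 hΦ hΦ' using fun k => hC k _ 0 (hdat k) (hsm k) H
  refine ⟨fun c => ∑ k, Φ k c, fun c => Finset.sum_nonneg fun _ _ => hΦ0 _ _, ?_, ?_⟩
  · rw [EB_sum]
    exact Finset.sum_le_sum fun k _ => hΦ k
  · intro c g hg k T hT hTH
    refine (hΦ' k c g hg T hT hTH).trans ?_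
    gcongr
    exact Finset.single_le_sum (f := fun k => Φ k c) (fun _ _ => hΦ0 _ _) (Finset.mem_univ k)

end Pool.Agent.Y722.ST
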