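import Pool.Agent.Y722.ST.Main
import Pool.Agent.Y722.ST.Abel
import Mathlib.NumberTheory.LegendreSymbol.QuadraticChar.Basic

/-!
# Families of hyperelliptic fibrations `y² = F_c(x, t)` over affine space

`F_c = F₀ + ∑ c i h i` is of odd degree in the variable `x = X 0`; the other variables are the
coordinates `t` of the base `𝔸^m`.
-/

set_option autoImplicit false
set_option linter.unusedSectionVars false

namespace Pool.Agent.Y722.ST

open Finset Pool.Agent.Y722.HS Pool.Agent.Y722.LS Pool.Agent.Y722.PC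

variable {m : ℕ} {ι : Type} [Fintype ι] [DecidableEq ι]

/-- The value of `F₀ + ∑ c i h i` at a point over `𝔽_p`. -/
noncomputable def vl (F₀ : MvPolynomial (Fin (m + 1)) ℤ) (h : ι → MvPolynomial (Fin (m + 1)) ℤ)
    (p : ℕ) (c : ι → ZMod p) (P : Fin (m + 1) → ZMod p) : ZMod p :=
  MvPolynomial.aeval P F₀ + ∑ i, c i * MvPolynomial.aeval P (h i)

/-- Two points over `𝔽_p`, the first one not a common zero of the `h i`, are separated. -/
def Sep2 (h : ι → MvPolynomial (Fin (m + 1)) ℤ) (p : ℕ) : Prop :=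
  ∀ P Q : Fin (m + 1) → ZMod p, P ≠ Q → (∃ i, MvPolynomial.aeval P (h i) ≠ 0) →
    ∃ c : ι → ZMod p, ∑ i, c i * MvPolynomial.aeval P (h i) ≠ 0 ∧
      ∑ i, c i * MvPolynomial.aeval Q (h i) = 0

section
variable {F₀ : MvPolynomial (Fin (m + 1)) ℤ} {h : ι → MvPolynomial (Fin (m + 1)) ℤ} {p : ℕ}
  [hp : Fact p.Prime]

/-- The quadratic character. -/
noncomputable def qc (p : ℕ) [Fact p.Prime] (v : ZMod p) : ℝ := (quadraticChar (ZMod p) v : ℤ)

theorem qc_abs (v : ZMod p) : |qc p v| ≤ 1 := by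
  unfold qc
  by_cases hv : v = 0
  · subst hv
    simp
  · rcases quadraticChar_dichotomy hv with h1 | h1 <;> rw [h1] <;> simp

theorem qc_sq (v : ZMod p) : qc p v ^ 2 ≤ 1 := by
  rw [← sq_abs]
  have := qc_abs (p := p) v
  have h0 := abs_nonneg (qc p v)
  nlinarith

theorem sum_qc (hp2 : p ≠ 2) : ∑ v : ZMod p, qc p v = 0 := by
  unfold qc
  have h1 := quadraticChar_sum_zero (F := ZMod p) (by rwa [ZMod.ringChar_zmod_n])
  exact_mod_cast h1

theorem sum_qc_affine (hp2 : p ≠ 2) (a b : ZMod p) (hb : b ≠ 0) :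
    ∑ s : ZMod p, qc p (a + s * b) = 0 := by
  rw [← sum_qc (p := p) hp2]
  exact Fintype.sum_bijective (fun s : ZMod p => a + s * b)
    ⟨fun x y hxy => mul_right_cancel₀ hb (add_left_cancel hxy),
      fun y => ⟨(y - a) / b, by field_simp; ring⟩⟩ _ _ fun _ => rfl

theorem vl_add (c c' : ι → ZMod p) (s : ZMod p) (P : Fin (m + 1) → ZMod p) :
    vl F₀ h p (fun i => c i + s * c' i) P = vl F₀ h p c P +
      s * ∑ i, c' i * MvPolynomial.aeval P (h i) := by
  unfold vl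
  rw [Finset.mul_sum, add_assoc, ← Finset.sum_add_distrib]
  congr 1
  exact Finset.sum_congr rfl fun i _ => by ring

/-- Averages are invariant under translations. -/
theorem EM_shift (g : (ι → ZMod p) → ℝ) (c' : ι → ZMod p)
    (hg : ∀ c : ι → ZMod p, ∑ s : ZMod p, g (fun i => c i + s * c' i) = 0) : EM p g = 0 := by
  have hp0 : (p : ℝ) ≠ 0 := by exact_mod_cast hp.out.ne_zero
  have h1 : ∀ s : ZMod p, ∑ c : ι → ZMod p, g (fun i => c i + s * c' i) = ∑ c, g c := by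
    intro s
    exact Fintype.sum_equiv (Equiv.addRight fun i => s * c' i) _ _ fun c => rfl
  have h2 : ∑ s : ZMod p, ∑ c : ι → ZMod p, g (fun i => c i + s * c' i) = 0 := by
    rw [Finset.sum_comm]
    exact Finset.sum_eq_zero fun c _ => hg c
  rw [Finset.sum_congr rfl fun s _ => h1 s, Finset.sum_const, nsmul_eq_mul, Finset.card_univ,
    ZMod.card] at h2
  have h3 : ∑ c, g c = 0 := by
    rcases mul_eq_zero.mp h2 with h4 | h4
    · exact absurd h4 hp0
    · exact h4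
  rw [EM, h3, zero_div]

theorem EM_qc (hp2 : p ≠ 2) (P : Fin (m + 1) → ZMod p)
    (hP : ∃ i, MvPolynomial.aeval P (h i) ≠ 0) :
    EM p (fun c : ι → ZMod p => qc p (vl F₀ h p c P)) = 0 := by
  obtain ⟨i, hi⟩ := hP
  have h0 : ∑ k, (Pi.single i (1 : ZMod p) : ι → ZMod p) k * MvPolynomial.aeval P (h k) =
      MvPolynomial.aeval P (h i) := by
    rw [Finset.sum_eq_single i]
    · simp
    · intro k _ hk
      simp [hk]
    · intro hk
      exact absurd (Finset.mem_univ i) hk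
  refine EM_shift _ (Pi.single i 1) fun c => ?_
  simp only [vl_add, h0]
  exact sum_qc_affine hp2 _ _ hi

theorem EM_qc_mul (hp2 : p ≠ 2) (hs : Sep2 h p) (P Q : Fin (m + 1) → ZMod p) (hPQ : P ≠ Q)
    (hP : ∃ i, MvPolynomial.aeval P (h i) ≠ 0) :
    EM p (fun c : ι → ZMod p => qc p (vl F₀ h p c P) * qc p (vl F₀ h p c Q)) = 0 := by
  obtain ⟨c', h1, h2⟩ := hs P Q hPQ hP
  refine EM_shift _ c' fun c => ?_
  simp only [vl_add, h2, mul_zero, add_zero]
  rw [← Finset.sum_mul, sum_qc_affine hp2 _ _ h1, zero_mul]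

end

open Classical in
/-- The points over `𝔽_p` at which all `h i` vanish. -/
noncomputable def base (h : ι → MvPolynomial (Fin (m + 1)) ℤ) (p : ℕ) [NeZero p] :
    Finset (Fin (m + 1) → ZMod p) :=
  {P | ∀ i, MvPolynomial.aeval P (h i) = 0}

open Classical in
/-- The fibre average `𝔄_p(c) = -p^{-m} ∑_{(x, t)} χ(F_c(x, t))`, `χ` the quadratic character. -/
noncomputable def fav (F₀ : MvPolynomial (Fin (m + 1)) ℤ) (h : ι → MvPolynomial (Fin (m + 1)) ℤ)
    (p : ℕ) (c : ι → ZMod p) : ℝ :=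
  if hp : p.Prime then
    haveI := Fact.mk hp
    (-(∑ P : Fin (m + 1) → ZMod p, qc p (vl F₀ h p c P)) / (p : ℝ) ^ m)
  else 0

open Classical in
/-- The sum of the quadratic character of `F₀` over the common zeros of the `h i` over `𝔽_p`. -/
noncomputable def bsum (F₀ : MvPolynomial (Fin (m + 1)) ℤ) (h : ι → MvPolynomial (Fin (m + 1)) ℤ)
    (p : ℕ) : ℝ :=
  if hp : p.Prime then
    haveI := Fact.mk hp
    (∑ P ∈ base h p, qc p (MvPolynomial.aeval P F₀))
  else 0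

section
variable {F₀ : MvPolynomial (Fin (m + 1)) ℤ} {h : ι → MvPolynomial (Fin (m + 1)) ℤ} {p : ℕ}
  [hp : Fact p.Prime]

theorem fav_eq (c : ι → ZMod p) : fav F₀ h p c =
    -(∑ P : Fin (m + 1) → ZMod p, qc p (vl F₀ h p c P)) / (p : ℝ) ^ m := by
  unfold fav
  rw [dif_pos hp.out]

theorem bsum_eq : bsum F₀ h p = ∑ P ∈ base h p, qc p (MvPolynomial.aeval P F₀) := by
  unfold bsum
  rw [dif_pos hp.out]

theorem vl_base (c : ι → ZMod p) (P : Fin (m + 1) → ZMod p) (hP : P ∈ base h p) :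
    vl F₀ h p c P = MvPolynomial.aeval P F₀ := by
  classical
  rw [base, Finset.mem_filter] at hP
  unfold vl
  rw [Finset.sum_eq_zero fun i _ => by rw [hP.2 i, mul_zero], add_zero]

theorem split_sum (c : ι → ZMod p) : ∑ P : Fin (m + 1) → ZMod p, qc p (vl F₀ h p c P) =
    bsum F₀ h p + ∑ P ∈ (base h p)ᶜ, qc p (vl F₀ h p c P) := by
  classical
  rw [bsum_eq, ← Finset.sum_add_sum_compl (base h p)]
  congr 1
  exact Finset.sum_congr rfl fun P hP => by rw [vl_base c P hP]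

theorem not_base {P : Fin (m + 1) → ZMod p} (hP : P ∈ (base h p)ᶜ) :
    ∃ i, MvPolynomial.aeval P (h i) ≠ 0 := by
  classical
  rw [Finset.mem_compl, base, Finset.mem_filter, not_and] at hP
  have := hP (Finset.mem_univ _)
  push Not at this
  exact this

theorem EM_sum {κ : Type*} (s : Finset κ) (g : κ → (ι → ZMod p) → ℝ) :
    EM p (fun c => ∑ k ∈ s, g k c) = ∑ k ∈ s, EM p (g k) := by
  simp only [EM]
  rw [Finset.sum_comm, Finset.sum_div]

theorem EM_fav (hp2 : p ≠ 2) : EM p (fun c : ι → ZMod p => fav F₀ h p c) =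
    -(bsum F₀ h p / (p : ℝ) ^ m) := by
  have h1 : (fun c : ι → ZMod p => fav F₀ h p c) = fun c =>
      (-1 / (p : ℝ) ^ m) * (bsum F₀ h p + ∑ P ∈ (base h p)ᶜ, qc p (vl F₀ h p c P)) := by
    funext c
    rw [fav_eq, split_sum]
    ring
  rw [h1, EM_mul, EM_add, EM_const, EM_sum,
    Finset.sum_eq_zero fun P hP => EM_qc hp2 P (not_base hP), add_zero]
  ring

theorem EM_fav_sq (hp2 : p ≠ 2) (hs : Sep2 h p) :
    EM p (fun c : ι → ZMod p => fav F₀ h p c ^ 2) ≤
      (bsum F₀ h p / (p : ℝ) ^ m) ^ 2 + (p : ℝ) ^ (m + 1) / ((p : ℝ) ^ m) ^ 2 := by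
  classical
  have hp0 : (0 : ℝ) < p := by exact_mod_cast hp.out.pos
  have h1 : (fun c : ι → ZMod p => fav F₀ h p c ^ 2) = fun c =>
      (1 / ((p : ℝ) ^ m) ^ 2) * (bsum F₀ h p ^ 2 +
        (2 * bsum F₀ h p * ∑ P ∈ (base h p)ᶜ, qc p (vl F₀ h p c P) +
        ∑ P ∈ (base h p)ᶜ, ∑ Q ∈ (base h p)ᶜ, qc p (vl F₀ h p c P) * qc p (vl F₀ h p c Q))) := by
    funext c
    rw [fav_eq, split_sum, ← Finset.sum_mul_sum]
    ring
  have h2 : EM p (fun c : ι → ZMod p => ∑ P ∈ (base h p)ᶜ, ∑ Q ∈ (base h p)ᶜ,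
      qc p (vl F₀ h p c P) * qc p (vl F₀ h p c Q)) ≤ (p : ℝ) ^ (m + 1) := by
    rw [EM_sum]
    have h3 : ∀ P ∈ (base h p)ᶜ, EM p (fun c : ι → ZMod p => ∑ Q ∈ (base h p)ᶜ,
        qc p (vl F₀ h p c P) * qc p (vl F₀ h p c Q)) ≤ 1 := by
      intro P hP
      rw [EM_sum, Finset.sum_eq_single P]
      · have : (fun c : ι → ZMod p => qc p (vl F₀ h p c P) * qc p (vl F₀ h p c P)) =
            fun c => qc p (vl F₀ h p c P) ^ 2 := by
          funext c; ring
        rw [this]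
        refine (EM_mono p _ (fun _ => 1) fun c => qc_sq _).trans ?_
        rw [EM_const]
      · intro Q _ hQ
        exact EM_qc_mul hp2 hs P Q (Ne.symm hQ) (not_base hP)
      · intro h
        exact absurd hP h
    refine (Finset.sum_le_sum h3).trans ?_
    rw [Finset.sum_const, nsmul_eq_mul, mul_one]
    calc (((base h p)ᶜ).card : ℝ) ≤ ((Finset.univ : Finset (Fin (m + 1) → ZMod p)).card : ℝ) := by
          exact_mod_cast Finset.card_le_card (Finset.subset_univ _)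
      _ = _ := by
          rw [Finset.card_univ, Fintype.card_fun, ZMod.card, Fintype.card_fin]
          push_cast
          rfl
  rw [h1, EM_mul, EM_add, EM_const, EM_add, EM_mul, EM_sum,
    Finset.sum_eq_zero fun P hP => EM_qc hp2 P (not_base hP), mul_zero, zero_add]
  rw [div_pow, ← add_div, one_div_mul_eq_div]
  gcongr

end

/-- The fibre averages satisfy the hypotheses of the general theorem. -/
theorem dat_fav (hm : 1 ≤ m) {F₀ : MvPolynomial (Fin (m + 1)) ℤ}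
    {h : ι → MvPolynomial (Fin (m + 1)) ℤ} {p0 : ℕ} {r C0 : ℝ} (hC0 : 0 ≤ C0)
    (hs : ∀ p : ℕ, p.Prime → p0 ≤ p → Sep2 h p)
    (hb : ∀ p : ℕ, p.Prime → p0 ≤ p → |bsum F₀ h p - r * (p : ℝ) ^ m| ≤
      C0 * ((p : ℝ) ^ m / Real.sqrt p)) :
    Dat (2 + C0 + 2 * (r ^ 2 + C0 ^ 2)) (p0 + 3) (fun p (c : ι → ZMod p) => fav F₀ h p c) (-r) := by
  have key : ∀ (p : ℕ) [Fact p.Prime], p0 + 3 ≤ p →
      |bsum F₀ h p / (p : ℝ) ^ m - r| ≤ C0 / Real.sqrt p := by
    intro p hpF hge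
    have hp0 : (0 : ℝ) < p := by exact_mod_cast hpF.out.pos
    have h1 := hb p hpF.out (by omega)
    have h2 : bsum F₀ h p / (p : ℝ) ^ m - r = (bsum F₀ h p - r * (p : ℝ) ^ m) / (p : ℝ) ^ m := by
      field_simp
    rw [h2, abs_div, abs_of_pos (by positivity : (0 : ℝ) < (p : ℝ) ^ m), div_le_iff₀ (by positivity)]
    refine h1.trans (le_of_eq ?_)
    ring
  refine ⟨by nlinarith [sq_nonneg r, sq_nonneg C0], ?_, ?_⟩
  · intro p hpF hge
    have hp0 : (0 : ℝ) < p := by exact_mod_cast hpF.out.pos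
    have hp1 : (1 : ℝ) ≤ p := by exact_mod_cast hpF.out.one_lt.le
    refine (EM_fav_sq (by omega) (hs p hpF.out (by omega))).trans ?_
    have h1 := key p hge
    have h2 : C0 / Real.sqrt p ≤ C0 := div_le_self hC0 (by rw [Real.one_le_sqrt]; exact hp1)
    have h3 : |bsum F₀ h p / (p : ℝ) ^ m| ≤ |r| + C0 := by
      have := abs_sub_abs_le_abs_sub (bsum F₀ h p / (p : ℝ) ^ m) r
      linarith
    have h4 : (bsum F₀ h p / (p : ℝ) ^ m) ^ 2 ≤ 2 * (r ^ 2 + C0 ^ 2) := by
      rw [← sq_abs]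
      calc _ ≤ (|r| + C0) ^ 2 := by gcongr
        _ ≤ _ := by
            rw [← sq_abs r]
            nlinarith [sq_nonneg (|r| - C0)]
    have h5 : (p : ℝ) ^ (m + 1) / ((p : ℝ) ^ m) ^ 2 ≤ 1 := by
      rw [div_le_one (by positivity), ← pow_mul]
      exact pow_le_pow_right₀ hp1 (by omega)
    linarith
  · intro p hpF hge
    have hp0 : (0 : ℝ) < p := by exact_mod_cast hpF.out.pos
    rw [EM_fav (by omega)]
    have h1 := key p hge
    have h2 : -(bsum F₀ h p / (p : ℝ) ^ m) - -r = -(bsum F₀ h p / (p : ℝ) ^ m - r) := by ring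
    rw [h2, abs_neg]
    refine h1.trans ?_
    gcongr
    nlinarith [sq_nonneg r, sq_nonneg C0]

end Pool.Agent.Y722.ST
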