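import Pool.Agent.Y722.ST.Main
import Pool.Agent.Y722.TP.Complete

/-!
# Moments of the Frobenius traces of the members of a linear system over the primes up to `T`
-/

set_option autoImplicit false
set_option linter.unusedSectionVars false

namespace Pool.Agent.Y722.ST

open Finset Pool.Agent.Y722.HS Pool.Agent.Y722.LS Pool.Agent.Y722.PC Pool.Agent.Y722.TM
  Pool.Agent.Y722.TP

variable {n : ℕ} {ι : Type} [Fintype ι] [DecidableEq ι]

/-- The hypersurface `X_c : ∑ c i f i = 0` has smooth reduction at the prime `p`. -/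
def Good (f : ι → MvPolynomial (Fin (n + 1)) ℤ) (c : ι → ℤ) (p : ℕ) : Prop :=
  ∃ hp : p.Prime,
    haveI := Fact.mk hp
    IsSmooth (MvPolynomial.map (algebraMap (ZMod p) (AlgebraicClosure (ZMod p)))
      (lform f (red p c)))

/-- The normalised trace of Frobenius `(-1)^{n-1} (#X_c(𝔽_p) - u p) / p^{(n-1)/2}` on the part of the
middle cohomology that varies with `c`. -/
noncomputable def ntr (f : ι → MvPolynomial (Fin (n + 1)) ℤ) (u : ℕ → ℝ) (c : ι → ℤ) (p : ℕ) : ℝ :=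
  (-1) ^ (n - 1) * yy f u p (red p c)

open Classical in
/-- The deviation of the `j`-th moment over the primes of good reduction below `T`, with weights. -/
noncomputable def dev (f : ι → MvPolynomial (Fin (n + 1)) ℤ) (u : ℕ → ℝ) (w : ℕ → ℝ) (j : ℕ)
    (c : ι → ℤ) (T : ℕ) : ℝ :=
  ∑ p ∈ range T with Good f c p, w p * (ntr f u c p ^ j - gm j)

theorem good_of {f : ι → MvPolynomial (Fin (n + 1)) ℤ} {P : MvPolynomial ι ℤ}
    (hP : ∀ (K : Type) [Field K] (c : ι → K), MvPolynomial.eval₂ (Int.castRingHom K) c P ≠ 0 →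
      IsSmooth (lform f c)) (c : ι → ℤ) (p : ℕ) (hp : p.Prime) (hb : BZ P p (red p c) = 0) :
    Good f c p := by
  refine ⟨hp, ?_⟩
  have := Fact.mk hp
  have hb2 : MvPolynomial.eval₂ (Int.castRingHom (ZMod p)) (red p c) P ≠ 0 := by
    intro h0
    rw [BZ, if_pos h0] at hb
    norm_num at hb
  show IsSmooth _
  rw [map_lform]
  apply hP
  have h2 : MvPolynomial.eval₂ (Int.castRingHom (AlgebraicClosure (ZMod p)))
      (fun i => algebraMap (ZMod p) (AlgebraicClosure (ZMod p)) (red p c i)) P =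
      algebraMap (ZMod p) (AlgebraicClosure (ZMod p))
        (MvPolynomial.eval₂ (Int.castRingHom (ZMod p)) (red p c) P) := by
    rw [MvPolynomial.eval₂_comp_left, RingHom.ext_int
      ((algebraMap (ZMod p) (AlgebraicClosure (ZMod p))).comp (Int.castRingHom (ZMod p)))
      (Int.castRingHom (AlgebraicClosure (ZMod p)))]
    rfl
  rw [h2]
  intro h3
  exact hb2 ((map_eq_zero _).mp h3)

theorem dev_eq (f : ι → MvPolynomial (Fin (n + 1)) ℤ) (u : ℕ → ℝ) (w : ℕ → ℝ) (j : ℕ)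
    (c : ι → ℤ) (T : ℕ) : dev f u w j c T = ((-1) ^ (n - 1)) ^ j *
      DD (fun p c => w p * (yy f u p c ^ j - gm j)) 0 (Good f c) c T := by
  classical
  rw [dev, DD, Finset.mul_sum, Finset.sum_filter]
  refine Finset.sum_congr rfl fun p _ => ?_
  by_cases hg : Good f c p
  · have hp : p.Prime := hg.1
    rw [if_pos hg, if_pos ⟨hp, hg⟩, sub_zero, ntr, mul_pow]
    rcases Nat.even_or_odd j with hj | hj
    · have h1 : ((-1 : ℝ) ^ (n - 1)) ^ j = 1 := by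
        rw [← pow_mul, mul_comm, pow_mul, hj.neg_one_pow, one_pow]
      rw [h1]
      ring
    · have h1 : (gm j : ℝ) = 0 := by
        unfold gm
        rw [if_neg (by rwa [Nat.not_even_iff_odd])]
        simp
      rw [h1]
      ring
  · rw [if_neg hg, if_neg (fun h => hg h.2), mul_zero]

theorem dev_sq (f : ι → MvPolynomial (Fin (n + 1)) ℤ) (u : ℕ → ℝ) (w : ℕ → ℝ) (j : ℕ)
    (c : ι → ℤ) (T : ℕ) : dev f u w j c T ^ 2 =
      DD (fun p c => w p * (yy f u p c ^ j - gm j)) 0 (Good f c) c T ^ 2 := by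
  rw [dev_eq, mul_pow, ← pow_mul, ← pow_mul]
  have : (-1 : ℝ) ^ ((n - 1) * (j * 2)) = 1 := by
    rw [show (n - 1) * (j * 2) = 2 * ((n - 1) * j) by ring, pow_mul]
    norm_num
  rw [this, one_mul]

/-- The moments satisfy the hypotheses of the general theorem. -/
theorem dat_yy {d : ℕ} (hn : 2 ≤ n) (f : ι → MvPolynomial (Fin (n + 1)) ℤ)
    (hf : ∀ i, (f i).IsHomogeneous d) (p0 k : ℕ)
    (hsep : ∀ p : ℕ, p.Prime → p0 ≤ p → SepK (2 * k) f p) (u : ℕ → ℝ) (C0 : ℝ)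
    (hZ : ∀ p : ℕ, p.Prime → p0 ≤ p → zn f p ≤ C0 * (p : ℝ) ^ (((n : ℝ) - 1) / 2))
    (hu : ∀ p : ℕ, p.Prime → p0 ≤ p →
      |zn f p + ((p : ℝ) ^ n - 1) / ((p : ℝ) - 1) - u p| ≤ C0 * (p : ℝ) ^ ((n : ℝ) / 2 - 1))
    (j : ℕ) (hj : j ≤ k) :
    ∃ K : ℝ, Dat K p0 (fun p (c : ι → ZMod p) => yy f u p c ^ j) (gm j) := by
  have hC0' : 0 ≤ |C0| := abs_nonneg _
  have hle : ∀ x : ℝ, 0 ≤ x → C0 * x ≤ |C0| * x := fun x hx =>
    mul_le_mul_of_nonneg_right (le_abs_self _) hx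
  obtain ⟨K1, hK10, hK1⟩ := mom_norm j |C0| hC0'
  obtain ⟨K2, hK20, hK2⟩ := mom_norm (2 * j) |C0| hC0'
  refine ⟨1 + K1 + (K2 + gm (2 * j)), by
    have : (0 : ℝ) ≤ gm (2 * j) := by positivity
    linarith, ?_, ?_⟩
  · intro p hpF hge
    have h1 : (fun c : ι → ZMod p => (yy f u p c ^ j) ^ 2) = fun c => yy f u p c ^ (2 * j) := by
      funext c
      rw [← pow_mul, mul_comm]
    rw [h1]
    have h2 := hK2 n d ι f p u hn hf (fun x Y hY => hsep p hpF.out hge x Y (by omega))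
      ((hZ p hpF.out hge).trans (hle _ (by positivity)))
      ((hu p hpF.out hge).trans (hle _ (by positivity)))
    have hp1 : (1 : ℝ) ≤ p := by exact_mod_cast hpF.out.one_lt.le
    have h3 : K2 / Real.sqrt p ≤ K2 := div_le_self hK20 (by rw [Real.one_le_sqrt]; exact hp1)
    have h4 := (abs_le.mp h2).2
    linarith
  · intro p hpF hge
    have hp0 : (0 : ℝ) < p := by exact_mod_cast hpF.out.pos
    have h1 := hK1 n d ι f p u hn hf (fun x Y hY => hsep p hpF.out hge x Y (by omega))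
      ((hZ p hpF.out hge).trans (hle _ (by positivity)))
      ((hu p hpF.out hge).trans (hle _ (by positivity)))
    refine h1.trans ?_
    have : (0 : ℝ) ≤ gm (2 * j) := by positivity
    gcongr
    linarith

/-- **Moments of the Frobenius traces for almost all members of a linear system.** -/
theorem moments {d : ℕ} (hn : 2 ≤ n) (hd : 1 ≤ d) (f : ι → MvPolynomial (Fin (n + 1)) ℤ)
    (hf : ∀ i, (f i).IsHomogeneous d) (c0 : ι → ℤ)
    (hs : IsSmooth (lform f (fun i => (c0 i : ℂ)))) (p0 k : ℕ)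
    (hsep : ∀ p : ℕ, p.Prime → p0 ≤ p → SepK (2 * k) f p) (u : ℕ → ℝ) (C0 : ℝ)
    (hZ : ∀ p : ℕ, p.Prime → p0 ≤ p → zn f p ≤ C0 * (p : ℝ) ^ (((n : ℝ) - 1) / 2))
    (hu : ∀ p : ℕ, p.Prime → p0 ≤ p →
      |zn f p + ((p : ℝ) ^ n - 1) / ((p : ℝ) - 1) - u p| ≤ C0 * (p : ℝ) ^ ((n : ℝ) / 2 - 1)) :
    ∃ C : ℝ, ∀ w : ℕ → ℝ, (∀ p, |w p| ≤ 1) → ∀ (H : ℕ) (T j : (ι → ℤ) → ℕ),
      (∀ c, 2 ≤ T c ∧ 8 * T c ^ 4 ≤ H ∧ j c ≤ k) →
      ∑ c ∈ box ι H, dev f u w (j c) c (T c) ^ 2 / (T c * Real.log (T c) ^ 4) ≤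
        C * (box ι H).card := by
  obtain ⟨P, hP0, hP⟩ := exists_disc f hd hf c0 hs
  choose K hK using fun j : Fin (k + 1) => dat_yy hn f hf p0 k hsep u C0 hZ hu j
    (Nat.lt_succ_iff.mp j.2)
  obtain ⟨C, hC0, hC⟩ := effective_weights hK P c0 hP0
  refine ⟨C, fun w hw H T j hT => ?_⟩
  obtain ⟨Φ, hΦ0, hΦ, hΦ'⟩ := hC (fun _ => w) (fun _ => hw) H
  have h1 : ∀ c ∈ box ι H, dev f u w (j c) c (T c) ^ 2 / (T c * Real.log (T c) ^ 4) ≤ Φ c := by
    intro c _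
    obtain ⟨h2, h3, h4⟩ := hT c
    have hT0 : (0 : ℝ) < T c := by exact_mod_cast (by omega : 0 < T c)
    have hl : 0 < Real.log (T c) := Real.log_pos (by exact_mod_cast (by omega : 1 < T c))
    have h5 := hΦ' c (Good f c) (fun p hp _ hb => good_of hP c p hp hb)
      ⟨j c, Nat.lt_succ_of_le h4⟩ (T c) h2 h3
    rw [dev_sq, div_le_iff₀ (by positivity), mul_comm (Φ c)]
    exact h5
  refine (Finset.sum_le_sum h1).trans ?_
  rw [EB, div_le_iff₀ (by positivity)] at hΦ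
  rw [card_box]
  exact hΦ

/-- The same for all hypersurfaces of degree `d ≥ 2k - 1`. -/
theorem momentsComplete {d k : ℕ} (hn : 2 ≤ n) (hd : 1 ≤ d) (hk : 2 * k ≤ d + 1) :
    ∃ C : ℝ, ∀ w : ℕ → ℝ, (∀ p, |w p| ≤ 1) → ∀ (H : ℕ) (T j : (Mon n d → ℤ) → ℕ),
      (∀ c, 2 ≤ T c ∧ 8 * T c ^ 4 ≤ H ∧ j c ≤ k) →
      ∑ c ∈ box (Mon n d) H, dev (fun μ : Mon n d => monp μ)
        (fun p => ((p : ℝ) ^ n - 1) / ((p : ℝ) - 1)) w (j c) c (T c) ^ 2 /
          (T c * Real.log (T c) ^ 4) ≤ C * (box (Mon n d) H).card := by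
  have hz : ∀ p : ℕ, p.Prime → zn (fun μ : Mon n d => monp μ) p = 0 := by
    intro p hp
    have := Fact.mk hp
    rw [zn, bcone_monp]
    simp
  exact moments hn hd (fun μ : Mon n d => monp μ) (fun μ => monp_hom μ) (fermat n d ℤ)
    (smooth_fermat d hd) 0 k (fun p hp _ => by have := Fact.mk hp; exact sepK_monp hk p)
    (fun p => ((p : ℝ) ^ n - 1) / ((p : ℝ) - 1)) 0
    (fun p hp _ => by rw [hz p hp]; simp) (fun p hp _ => by rw [hz p hp]; simp)

end Pool.Agent.Y722.ST
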