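import Pool.Agent.Y722.LS.Abs

/-!
# A maximal inequality for sums over primes: the mean square of the supremum over the length
-/

set_option autoImplicit false
set_option linter.unusedSectionVars false

namespace Pool.Agent.Y722.ST

open Finset Pool.Agent.Y722.HS Pool.Agent.Y722.LS

section
variable {Ω : Type*} (X : ℕ → Ω → ℝ)

/-- The sum over an interval. -/
noncomputable def SI (a b : ℕ) (c : Ω) : ℝ := ∑ i ∈ Ico a b, X i c

/-- The sum of the squares of the sums over the dyadic intervals of length `2 ^ j` below `2 ^ k`. -/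
noncomputable def mm (j k : ℕ) (c : Ω) : ℝ :=
  ∑ a ∈ range (2 ^ (k - j)), SI X (a * 2 ^ j) ((a + 1) * 2 ^ j) c ^ 2

variable {X}

theorem mm_nonneg (j k : ℕ) (c : Ω) : 0 ≤ mm X j k c :=
  Finset.sum_nonneg fun _ _ => sq_nonneg _

theorem SI_add {a b d : ℕ} (h1 : a ≤ b) (h2 : b ≤ d) (c : Ω) :
    SI X a d c = SI X a b c + SI X b d c := by
  unfold SI
  rw [Finset.sum_Ico_consecutive _ h1 h2]

theorem block (k l : ℕ) (c : Ω) : l ≤ k → ∀ A T : ℕ, (A + 1) * 2 ^ l ≤ 2 ^ k → A * 2 ^ l ≤ T →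
    T < (A + 1) * 2 ^ l → |SI X (A * 2 ^ l) T c| ≤ ∑ j ∈ range l, Real.sqrt (mm X j k c) := by
  induction l with
  | zero =>
    intro _ A T _ h1 h2
    have h3 : T = A := by
      simp at h1 h2
      omega
    subst h3
    simp [SI]
  | succ l ih =>
    intro hl A T hA h1 h2
    have e1 : A * 2 ^ (l + 1) = (2 * A) * 2 ^ l := by ring
    have e2 : (A + 1) * 2 ^ (l + 1) = (2 * A + 1 + 1) * 2 ^ l := by ring
    rw [Finset.sum_range_succ]
    by_cases hT : T < (2 * A + 1) * 2 ^ l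
    · have h3 := ih (by omega) (2 * A) T ?_ (by rw [← e1]; exact h1) hT
      · rw [e1]
        have := Real.sqrt_nonneg (mm X l k c)
        linarith
      · refine le_trans ?_ hA
        rw [e2]
        exact Nat.mul_le_mul_right _ (by omega)
    · push Not at hT
      have h3 := ih (by omega) (2 * A + 1) T (by rw [← e2]; exact hA) hT (by rw [← e2]; exact h2)
      have h4 : (2 * A) * 2 ^ l ≤ (2 * A + 1) * 2 ^ l := Nat.mul_le_mul_right _ (by omega)
      rw [e1, SI_add h4 hT]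
      have h5 : |SI X ((2 * A) * 2 ^ l) ((2 * A + 1) * 2 ^ l) c| ≤ Real.sqrt (mm X l k c) := by
        apply Real.abs_le_sqrt
        have h6 : 2 * A ∈ range (2 ^ (k - l)) := by
          rw [Finset.mem_range]
          have h7 : (2 * A + 1 + 1) * 2 ^ l ≤ 2 ^ (k - l) * 2 ^ l := by
            rw [← e2, ← pow_add]
            have : k - l + l = k := by omega
            rw [this]
            exact hA
          have h8 := Nat.le_of_mul_le_mul_right h7 (by positivity)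
          omega
        exact Finset.single_le_sum (f := fun a => SI X (a * 2 ^ l) ((a + 1) * 2 ^ l) c ^ 2)
          (fun _ _ => sq_nonneg _) h6
      have h9 := abs_add_le (SI X ((2 * A) * 2 ^ l) ((2 * A + 1) * 2 ^ l) c)
        (SI X ((2 * A + 1) * 2 ^ l) T c)
      linarith

theorem range_sq (k : ℕ) (c : Ω) (T : ℕ) (hT : T < 2 ^ k) :
    SI X 0 T c ^ 2 ≤ k * ∑ j ∈ range k, mm X j k c := by
  have h1 := block (X := X) k k c le_rfl 0 T (by simp) (by simp) (by simpa using hT)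
  rw [zero_mul] at h1
  have h2 : (∑ j ∈ range k, Real.sqrt (mm X j k c)) ^ 2 ≤
      (range k).card * ∑ j ∈ range k, Real.sqrt (mm X j k c) ^ 2 := sq_sum_le_card_mul_sum_sq
  have h3 : ∑ j ∈ range k, Real.sqrt (mm X j k c) ^ 2 = ∑ j ∈ range k, mm X j k c :=
    Finset.sum_congr rfl fun j _ => Real.sq_sqrt (mm_nonneg j k c)
  rw [h3, Finset.card_range] at h2
  refine le_trans ?_ h2
  rw [← sq_abs]
  gcongr

theorem sum_inv_sq (n : ℕ) : ∑ k ∈ Finset.Icc 1 n, 1 / (k : ℝ) ^ 2 ≤ 2 := by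
  have h : ∀ n : ℕ, ∑ k ∈ Finset.Icc 1 (n + 1), 1 / (k : ℝ) ^ 2 ≤ 2 - 1 / ((n : ℝ) + 1) := by
    intro n
    induction n with
    | zero => norm_num
    | succ n ih =>
      rw [Finset.sum_Icc_succ_top (by omega)]
      push_cast
      have h1 : 1 / ((n : ℝ) + 1 + 1) ^ 2 ≤ 1 / ((n : ℝ) + 1) - 1 / ((n : ℝ) + 1 + 1) := by
        rw [div_sub_div _ _ (by positivity) (by positivity), div_le_div_iff₀ (by positivity)
          (by positivity)]
        have : (0 : ℝ) ≤ n := by positivity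
        nlinarith
      linarith
  rcases n with _ | n
  · simp
  · refine (h n).trans ?_
    have : (0 : ℝ) ≤ 1 / ((n : ℝ) + 1) := by positivity
    linarith

end

section
variable {ι : Type} [Fintype ι] [DecidableEq ι] {X : ℕ → (ι → ℤ) → ℝ}

/-- **The maximal inequality.** -/
theorem max_sq {C : ℝ} (hC : 0 ≤ C) (H k0 : ℕ)
    (hX : ∀ a b : ℕ, a ≤ b → b ≤ 2 ^ k0 → EB H (fun c => SI X a b c ^ 2) ≤ C * ((b : ℝ) - a)) :
    ∃ Φ : (ι → ℤ) → ℝ, (∀ c, 0 ≤ Φ c) ∧ EB H Φ ≤ 2 * C ∧ ∀ c, ∀ T : ℕ, 2 ≤ T → T < 2 ^ k0 →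
      (∑ i ∈ range T, X i c) ^ 2 ≤ 162 * (T * Real.log T ^ 4) * Φ c := by
  have hM : ∀ k, k ≤ k0 → EB H (fun c => ∑ j ∈ range k, mm X j k c) ≤ C * (k * 2 ^ k) := by
    intro k hk
    rw [EB_sum]
    have h1 : ∀ j ∈ range k, EB H (fun c => mm X j k c) ≤ C * 2 ^ k := by
      intro j hj
      rw [Finset.mem_range] at hj
      unfold mm
      rw [EB_sum]
      have h2 : ∀ a ∈ range (2 ^ (k - j)),
          EB H (fun c => SI X (a * 2 ^ j) ((a + 1) * 2 ^ j) c ^ 2) ≤ C * 2 ^ j := by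
        intro a ha
        rw [Finset.mem_range] at ha
        have h3 : (a + 1) * 2 ^ j ≤ 2 ^ k0 := by
          calc (a + 1) * 2 ^ j ≤ 2 ^ (k - j) * 2 ^ j := Nat.mul_le_mul_right _ ha
            _ = 2 ^ k := by rw [← pow_add]; congr 1; omega
            _ ≤ 2 ^ k0 := Nat.pow_le_pow_right (by norm_num) hk
        refine (hX _ _ (Nat.mul_le_mul_right _ (by omega)) h3).trans (le_of_eq ?_)
        push_cast
        ring
      refine (Finset.sum_le_sum h2).trans ?_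
      rw [Finset.sum_const, Finset.card_range, nsmul_eq_mul]
      apply le_of_eq
      push_cast
      have : (2 : ℝ) ^ k = 2 ^ (k - j) * 2 ^ j := by rw [← pow_add]; congr 1; omega
      rw [this]
      ring
    refine (Finset.sum_le_sum h1).trans (le_of_eq ?_)
    rw [Finset.sum_const, Finset.card_range, nsmul_eq_mul]
    ring
  refine ⟨fun c => ∑ k ∈ Finset.Icc 1 k0,
    (1 / ((k : ℝ) ^ 3 * 2 ^ k)) * ∑ j ∈ range k, mm X j k c, ?_, ?_, ?_⟩
  · intro c
    refine Finset.sum_nonneg fun k _ => mul_nonneg (by positivity)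
      (Finset.sum_nonneg fun j _ => mm_nonneg j k c)
  · rw [EB_sum]
    have h1 : ∀ k ∈ Finset.Icc 1 k0, EB H (fun c => (1 / ((k : ℝ) ^ 3 * 2 ^ k)) *
        ∑ j ∈ range k, mm X j k c) ≤ C * (1 / (k : ℝ) ^ 2) := by
      intro k hk
      rw [Finset.mem_Icc] at hk
      rw [HS.EB_mul]
      have hk0 : (0 : ℝ) < k := by exact_mod_cast hk.1
      calc _ ≤ (1 / ((k : ℝ) ^ 3 * 2 ^ k)) * (C * (k * 2 ^ k)) := by
            gcongr
            exact hM k hk.2
        _ = _ := by field_simp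
    refine (Finset.sum_le_sum h1).trans ?_
    rw [← Finset.mul_sum]
    have := sum_inv_sq k0
    nlinarith
  · intro c T hT2 hT
    set k := Nat.log 2 T + 1 with hk
    have hTk : T < 2 ^ k := Nat.lt_pow_succ_log_self (by norm_num) T
    have hkT : 2 ^ (k - 1) ≤ T := by
      rw [hk, Nat.add_sub_cancel]
      exact Nat.pow_log_le_self 2 (by omega)
    have hk1 : 1 ≤ k := by omega
    have hkk : k ≤ k0 := by
      by_contra hlt
      push Not at hlt
      have : 2 ^ k0 ≤ 2 ^ (k - 1) := Nat.pow_le_pow_right (by norm_num) (by omega)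
      omega
    have h1 := range_sq (X := X) k c T hTk
    have h2 : (1 / ((k : ℝ) ^ 3 * 2 ^ k)) * ∑ j ∈ range k, mm X j k c ≤
        ∑ k ∈ Finset.Icc 1 k0, (1 / ((k : ℝ) ^ 3 * 2 ^ k)) * ∑ j ∈ range k, mm X j k c :=
      Finset.single_le_sum (f := fun k : ℕ => (1 / ((k : ℝ) ^ 3 * 2 ^ k)) *
        ∑ j ∈ range k, mm X j k c) (fun k _ => mul_nonneg (by positivity)
        (Finset.sum_nonneg fun j _ => mm_nonneg j k c)) (Finset.mem_Icc.mpr ⟨hk1, hkk⟩)
    set Φ := ∑ k ∈ Finset.Icc 1 k0, (1 / ((k : ℝ) ^ 3 * 2 ^ k)) * ∑ j ∈ range k, mm X j k c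
    set M := ∑ j ∈ range k, mm X j k c with hMdef
    have hM0 : 0 ≤ M := Finset.sum_nonneg fun j _ => mm_nonneg j k c
    have hΦ0 : 0 ≤ Φ := le_trans (mul_nonneg (by positivity) hM0) h2
    have hk0' : (0 : ℝ) < k := by exact_mod_cast hk1
    have h3 : M ≤ (k : ℝ) ^ 3 * 2 ^ k * Φ := by
      rw [one_div, inv_mul_le_iff₀ (by positivity)] at h2
      exact h2
    have hlog : (k : ℝ) ≤ 3 * Real.log T := by
      have hT0 : (0 : ℝ) < T := by positivity
      have h4 : ((k - 1 : ℕ) : ℝ) * Real.log 2 ≤ Real.log T := by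
        rw [← Real.log_pow]
        apply Real.log_le_log (by positivity)
        exact_mod_cast hkT
      have h5 : Real.log 2 ≤ Real.log T := Real.log_le_log (by norm_num) (by exact_mod_cast hT2)
      have h6 : (0.69 : ℝ) < Real.log 2 := by
        have := Real.log_two_gt_d9
        linarith
      rw [Nat.cast_sub hk1] at h4
      push_cast at h4
      nlinarith
    have h2k : (2 : ℝ) ^ k ≤ 2 * T := by
      have h4 : (2 : ℝ) ^ k = 2 * 2 ^ (k - 1) := by
        have hkk1 : k = (k - 1) + 1 := by omega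
        conv_lhs => rw [hkk1, pow_succ']
      rw [h4]
      have : ((2 ^ (k - 1) : ℕ) : ℝ) ≤ T := by exact_mod_cast hkT
      push_cast at this
      linarith
    have h4 : (∑ i ∈ range T, X i c) = SI X 0 T c := by
      unfold SI
      rw [Finset.range_eq_Ico]
    rw [h4]
    calc SI X 0 T c ^ 2 ≤ k * M := h1
      _ ≤ k * ((k : ℝ) ^ 3 * 2 ^ k * Φ) := by gcongr
      _ = (k : ℝ) ^ 4 * 2 ^ k * Φ := by ring
      _ ≤ (3 * Real.log T) ^ 4 * (2 * T) * Φ := by gcongr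
      _ = _ := by ring

/-- A nonnegative function: the sums are monotone. -/
theorem max_nonneg {C : ℝ} (hC : 0 ≤ C) (H k0 : ℕ) (hX0 : ∀ i c, 0 ≤ X i c)
    (hX : ∀ b : ℕ, b ≤ 2 ^ k0 → EB H (fun c => SI X 0 b c ^ 2) ≤ C * b) :
    ∃ Φ : (ι → ℤ) → ℝ, (∀ c, 0 ≤ Φ c) ∧ EB H Φ ≤ 2 * C ∧ ∀ c, ∀ T : ℕ, 2 ≤ T → T < 2 ^ k0 →
      (∑ i ∈ range T, X i c) ^ 2 ≤ 162 * (T * Real.log T ^ 4) * Φ c := by
  refine ⟨fun c => ∑ k ∈ Finset.Icc 1 k0, (1 / ((k : ℝ) ^ 2 * 2 ^ k)) * SI X 0 (2 ^ k) c ^ 2,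
    ?_, ?_, ?_⟩
  · intro c
    exact Finset.sum_nonneg fun k _ => by positivity
  · rw [EB_sum]
    have h1 : ∀ k ∈ Finset.Icc 1 k0, EB H (fun c => (1 / ((k : ℝ) ^ 2 * 2 ^ k)) *
        SI X 0 (2 ^ k) c ^ 2) ≤ C * (1 / (k : ℝ) ^ 2) := by
      intro k hk
      rw [Finset.mem_Icc] at hk
      rw [HS.EB_mul]
      have hk0 : (0 : ℝ) < k := by exact_mod_cast hk.1
      calc _ ≤ (1 / ((k : ℝ) ^ 2 * 2 ^ k)) * (C * ((2 ^ k : ℕ) : ℝ)) := by
            gcongr
            exact hX _ (Nat.pow_le_pow_right (by norm_num) hk.2)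
        _ = _ := by push_cast; field_simp
    refine (Finset.sum_le_sum h1).trans ?_
    rw [← Finset.mul_sum]
    have := sum_inv_sq k0
    nlinarith
  · intro c T hT2 hT
    set k := Nat.log 2 T + 1 with hk
    have hTk : T < 2 ^ k := Nat.lt_pow_succ_log_self (by norm_num) T
    have hkT : 2 ^ (k - 1) ≤ T := by
      rw [hk, Nat.add_sub_cancel]
      exact Nat.pow_log_le_self 2 (by omega)
    have hk1 : 1 ≤ k := by omega
    have hkk : k ≤ k0 := by
      by_contra hlt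
      push Not at hlt
      have : 2 ^ k0 ≤ 2 ^ (k - 1) := Nat.pow_le_pow_right (by norm_num) (by omega)
      omega
    have h2 : (1 / ((k : ℝ) ^ 2 * 2 ^ k)) * SI X 0 (2 ^ k) c ^ 2 ≤
        ∑ k ∈ Finset.Icc 1 k0, (1 / ((k : ℝ) ^ 2 * 2 ^ k)) * SI X 0 (2 ^ k) c ^ 2 :=
      Finset.single_le_sum (f := fun k : ℕ => (1 / ((k : ℝ) ^ 2 * 2 ^ k)) * SI X 0 (2 ^ k) c ^ 2)
        (fun k _ => by positivity) (Finset.mem_Icc.mpr ⟨hk1, hkk⟩)
    set Φ := ∑ k ∈ Finset.Icc 1 k0, (1 / ((k : ℝ) ^ 2 * 2 ^ k)) * SI X 0 (2 ^ k) c ^ 2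
    have hk0' : (0 : ℝ) < k := by exact_mod_cast hk1
    have h3 : SI X 0 (2 ^ k) c ^ 2 ≤ (k : ℝ) ^ 2 * 2 ^ k * Φ := by
      rw [one_div, inv_mul_le_iff₀ (by positivity)] at h2
      exact h2
    have hΦ0 : 0 ≤ Φ := le_trans (by positivity) h2
    have hlog : (k : ℝ) ≤ 3 * Real.log T := by
      have h4 : ((k - 1 : ℕ) : ℝ) * Real.log 2 ≤ Real.log T := by
        rw [← Real.log_pow]
        apply Real.log_le_log (by positivity)
        exact_mod_cast hkT
      have h5 : Real.log 2 ≤ Real.log T := Real.log_le_log (by norm_num) (by exact_mod_cast hT2)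
      have h6 : (0.69 : ℝ) < Real.log 2 := by
        have := Real.log_two_gt_d9
        linarith
      rw [Nat.cast_sub hk1] at h4
      push_cast at h4
      nlinarith
    have h2k : (2 : ℝ) ^ k ≤ 2 * T := by
      have h4 : (2 : ℝ) ^ k = 2 * 2 ^ (k - 1) := by
        have hkk1 : k = (k - 1) + 1 := by omega
        conv_lhs => rw [hkk1, pow_succ']
      rw [h4]
      have : ((2 ^ (k - 1) : ℕ) : ℝ) ≤ T := by exact_mod_cast hkT
      push_cast at this
      linarith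
    have h4 : (∑ i ∈ range T, X i c) ≤ SI X 0 (2 ^ k) c := by
      unfold SI
      rw [← Finset.range_eq_Ico]
      exact Finset.sum_le_sum_of_subset_of_nonneg (Finset.range_mono hTk.le) fun i _ _ => hX0 i c
    have h5 : 0 ≤ ∑ i ∈ range T, X i c := Finset.sum_nonneg fun i _ => hX0 i c
    have hk1' : (1 : ℝ) ≤ k := by exact_mod_cast hk1
    calc (∑ i ∈ range T, X i c) ^ 2 ≤ SI X 0 (2 ^ k) c ^ 2 := by gcongr
      _ ≤ (k : ℝ) ^ 2 * 2 ^ k * Φ := h3
      _ ≤ (k : ℝ) ^ 4 * 2 ^ k * Φ := by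
          have h8 : (k : ℝ) ^ 2 ≤ (k : ℝ) ^ 4 := pow_le_pow_right₀ hk1' (by norm_num)
          gcongr
      _ ≤ (3 * Real.log T) ^ 4 * (2 * T) * Φ := by gcongr
      _ = _ := by ring

end

end Pool.Agent.Y722.ST
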