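import Pool.Agent.Y722.ST.Hyper

/-!
# The Tauberian form of Nagao's conjecture for almost all members of families of fibrations
-/

set_option autoImplicit false
set_option linter.unusedSectionVars false

namespace Pool.Agent.Y722.ST

open Finset Pool.Agent.Y722.HS Pool.Agent.Y722.LS Pool.Agent.Y722.PC

variable {m : ℕ} {ι : Type} [Fintype ι] [DecidableEq ι]

open Classical in
/-- `∑ (𝔄_p(c) + r) log p` over the primes `p < T` outside `R`. -/
noncomputable def nag (F₀ : MvPolynomial (Fin (m + 1)) ℤ) (h : ι → MvPolynomial (Fin (m + 1)) ℤ)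
    (r : ℝ) (R : Set ℕ) (c : ι → ℤ) (T : ℕ) : ℝ :=
  ∑ p ∈ range T with p.Prime ∧ p ∉ R, (fav F₀ h p (red p c) + r) * Real.log p

theorem BZ_dvd (P : MvPolynomial ι ℤ) (c : ι → ℤ) (p : ℕ) (h : BZ P p (red p c) = 0) :
    ¬ (p : ℤ) ∣ MvPolynomial.eval c P := by
  intro h1
  unfold BZ at h
  have h2 : MvPolynomial.eval₂ (Int.castRingHom (ZMod p)) (red p c) P =
      ((MvPolynomial.eval c P : ℤ) : ZMod p) := by
    have e1 : red p c = (Int.castRingHom (ZMod p)) ∘ c := rfl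
    rw [e1]
    exact (MvPolynomial.eval₂_comp (Int.castRingHom (ZMod p)) c P).symm
  rw [h2, (ZMod.intCast_zmod_eq_zero_iff_dvd _ _).mpr h1, if_pos rfl] at h
  norm_num at h

/-- **Nagao's averages for almost all members of a family.** -/
theorem nagao (hm : 1 ≤ m) (F₀ : MvPolynomial (Fin (m + 1)) ℤ)
    (h : ι → MvPolynomial (Fin (m + 1)) ℤ) (p0 : ℕ) (r C0 : ℝ)
    (hs : ∀ p : ℕ, p.Prime → p0 ≤ p → Sep2 h p)
    (hb : ∀ p : ℕ, p.Prime → p0 ≤ p → |bsum F₀ h p - r * (p : ℝ) ^ m| ≤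
      C0 * ((p : ℝ) ^ m / Real.sqrt p)) (P : MvPolynomial ι ℤ) (hP : P ≠ 0) :
    ∃ C : ℝ, ∀ (H : ℕ) (T : (ι → ℤ) → ℕ) (R : (ι → ℤ) → Set ℕ),
      (∀ c, 2 ≤ T c ∧ 8 * T c ^ 4 ≤ H) →
      (∀ c, ∀ p ∈ R c, p0 ≤ p → (p : ℤ) ∣ MvPolynomial.eval c P) →
      ∑ c ∈ box ι H, nag F₀ h r (R c) c (T c) ^ 2 / (T c * Real.log (T c) ^ 6) ≤
        C * (box ι H).card := by
  classical
  have hC0' : 0 ≤ |C0| := abs_nonneg _
  obtain ⟨c0, hc0⟩ : ∃ c0 : ι → ℤ, MvPolynomial.eval c0 P ≠ 0 := by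
    by_contra hcon
    push Not at hcon
    exact hP (MvPolynomial.funext fun c => by rw [hcon c, map_zero])
  have hdat := dat_fav (p0 := p0) (r := r) hm hC0' hs fun p hp hge =>
    (hb p hp hge).trans (mul_le_mul_of_nonneg_right (le_abs_self _) (by positivity))
  set K := 2 + |C0| + 2 * (r ^ 2 + |C0| ^ 2) with hK
  obtain ⟨M, hM0, hM⟩ := bound_small (p0 + 3)
    (fun p (c : ι → ZMod p) => fav F₀ h p c) (-r)
  obtain ⟨C, hC, hCC⟩ := effective (ι := ι) K M hdat.K0 hM0 (p0 + 3) P c0 hc0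
  refine ⟨36 * C, fun H T R hT hR => ?_⟩
  obtain ⟨Φ, hΦ0, hΦ, hΦ'⟩ := hCC _ _ hdat hM H
  have h1 : ∀ c ∈ box ι H, nag F₀ h r (R c) c (T c) ^ 2 / (T c * Real.log (T c) ^ 6) ≤
      36 * Φ c := by
    intro c _
    obtain ⟨h2, h3⟩ := hT c
    have hT0 : (0 : ℝ) < T c := by exact_mod_cast (by omega : 0 < T c)
    have hl : 0 < Real.log (T c) := Real.log_pos (by exact_mod_cast (by omega : 1 < T c))
    set a : ℕ → ℝ := fun p => if p.Prime ∧ p ∉ R c then fav F₀ h p (red p c) - (-r) else 0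
      with ha
    have e1 : nag F₀ h r (R c) c (T c) = ∑ p ∈ range (T c), a p * Real.log p := by
      rw [nag, Finset.sum_filter]
      refine Finset.sum_congr rfl fun p _ => ?_
      rw [ha]
      simp only
      split_ifs
      · rw [sub_neg_eq_add]
      · rw [zero_mul]
    have h5 := abel_log a (by simp [ha, Nat.not_prime_zero]) (by simp [ha, Nat.not_prime_one])
      (Φ c) (T c) h2 (by
      intro t ht htT
      have h6 := hΦ' c (fun p => p ∉ R c) (fun p hp hge hbz hpR =>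
        BZ_dvd P c p hbz (hR c p hpR (by omega))) t ht (by
          have : t ^ 4 ≤ T c ^ 4 := Nat.pow_le_pow_left htT 4
          omega)
      have e2 : ∑ i ∈ range t, a i =
          DD (fun p (c : ι → ZMod p) => fav F₀ h p c) (-r) (fun p => p ∉ R c) c t := by
        rw [DD]
        refine Finset.sum_congr rfl fun p _ => ?_
        by_cases hq : p.Prime ∧ p ∉ R c
        · simp only [ha, if_pos hq]
        · simp only [ha, if_neg hq]
      rw [e2]
      exact h6)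
    rw [e1, div_le_iff₀ (by positivity)]
    refine h5.trans (le_of_eq ?_)
    ring
  refine (Finset.sum_le_sum h1).trans ?_
  rw [← Finset.mul_sum]
  rw [EB, div_le_iff₀ (by positivity)] at hΦ
  rw [card_box]
  linarith

section explicit
variable (D r e : ℕ) (m : ℕ)

/-- The index set of the monomials `x^a t^α`, `a < D - r`, `α_j ≤ e`. -/
abbrev Ex : Type := Fin (D - r) × (Fin (m + 1) → Fin (e + 1))

/-- `(x - 1) ⋯ (x - r)`. -/
noncomputable def wr : MvPolynomial (Fin (m + 1 + 1)) ℤ :=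
  ∏ j ∈ range r, (MvPolynomial.X 0 - MvPolynomial.C ((j : ℤ) + 1))

/-- `(x - 1) ⋯ (x - r) x^{D - r} + t₁²`. -/
noncomputable def Fr : MvPolynomial (Fin (m + 1 + 1)) ℤ :=
  wr r m * MvPolynomial.X 0 ^ (D - r) + MvPolynomial.X 1 ^ 2

/-- `(x - 1) ⋯ (x - r) x^a t^α`. -/
noncomputable def hr (i : Ex D r e m) : MvPolynomial (Fin (m + 1 + 1)) ℤ :=
  wr r m * (MvPolynomial.X 0 ^ (i.1 : ℕ) * ∏ j, MvPolynomial.X (Fin.succ j) ^ (i.2 j : ℕ))

variable {D r e m}

theorem aeval_wr {p : ℕ} (P : Fin (m + 1 + 1) → ZMod p) :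
    MvPolynomial.aeval P (wr r m) = ∏ j ∈ range r, (P 0 - ((j : ℤ) + 1 : ℤ)) := by
  simp [wr, map_prod]

theorem aeval_hr {p : ℕ} (P : Fin (m + 1 + 1) → ZMod p) (i : Ex D r e m) :
    MvPolynomial.aeval P (hr D r e m i) = MvPolynomial.aeval P (wr r m) *
      (P 0 ^ (i.1 : ℕ) * ∏ j, P (Fin.succ j) ^ (i.2 j : ℕ)) := by
  simp [hr, map_prod]

theorem sep_hr (hD : r + 2 ≤ D) (he : 1 ≤ e) (p : ℕ) [Fact p.Prime] : Sep2 (hr D r e m) p := by
  intro P Q hPQ ⟨i, hi⟩
  rw [aeval_hr] at hi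
  have hw : MvPolynomial.aeval P (wr r m) ≠ 0 := left_ne_zero_of_mul hi
  obtain ⟨k, hk⟩ : ∃ k, P k ≠ Q k := Function.ne_iff.mp hPQ
  set i0 : Ex D r e m := (⟨0, by omega⟩, fun _ => 0) with hi0
  obtain ⟨ik, hik⟩ : ∃ ik : Ex D r e m, ∀ R : Fin (m + 1 + 1) → ZMod p,
      R 0 ^ (ik.1 : ℕ) * ∏ j, R (Fin.succ j) ^ (ik.2 j : ℕ) = R k := by
    rcases Fin.eq_zero_or_eq_succ k with rfl | ⟨j, rfl⟩
    · exact ⟨(⟨1, by omega⟩, fun _ => 0), fun R => by simp⟩
    · refine ⟨(⟨0, by omega⟩, Pi.single j ⟨1, by omega⟩), fun R => ?_⟩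
      rw [Finset.prod_eq_single j]
      · simp
      · intro l _ hl
        simp [Pi.single_eq_of_ne hl]
      · intro hl
        exact absurd (Finset.mem_univ j) hl
  have h0 : ∀ R : Fin (m + 1 + 1) → ZMod p,
      R 0 ^ (i0.1 : ℕ) * ∏ j, R (Fin.succ j) ^ (i0.2 j : ℕ) = 1 := by
    intro R
    simp [hi0]
  refine ⟨fun i => (Pi.single ik (1 : ZMod p) : Ex D r e m → ZMod p) i -
    Q k * (Pi.single i0 (1 : ZMod p) : Ex D r e m → ZMod p) i, ?_, ?_⟩
  all_goals simp only [sub_mul, Finset.sum_sub_distrib, mul_assoc, ← Finset.mul_sum]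
  · rw [Finset.sum_eq_single ik (fun b _ hb => by rw [Pi.single_eq_of_ne hb, zero_mul])
      (fun h => absurd (Finset.mem_univ _) h),
      Finset.sum_eq_single i0 (fun b _ hb => by rw [Pi.single_eq_of_ne hb, zero_mul])
      (fun h => absurd (Finset.mem_univ _) h), Pi.single_eq_same, Pi.single_eq_same, aeval_hr,
      aeval_hr, hik, h0]
    intro h1
    apply hk
    have h2 : MvPolynomial.aeval P (wr r m) * (P k - Q k) = 0 := by linear_combination h1
    rcases mul_eq_zero.mp h2 with h3 | h3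
    · exact absurd h3 hw
    · exact sub_eq_zero.mp h3
  · rw [Finset.sum_eq_single ik (fun b _ hb => by rw [Pi.single_eq_of_ne hb, zero_mul])
      (fun h => absurd (Finset.mem_univ _) h),
      Finset.sum_eq_single i0 (fun b _ hb => by rw [Pi.single_eq_of_ne hb, zero_mul])
      (fun h => absurd (Finset.mem_univ _) h), Pi.single_eq_same, Pi.single_eq_same, aeval_hr,
      aeval_hr, hik, h0]
    ring

theorem mem_base_hr (hD : r + 1 ≤ D) {p : ℕ} [Fact p.Prime] (P : Fin (m + 1 + 1) → ZMod p) :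
    P ∈ base (hr D r e m) p ↔ MvPolynomial.aeval P (wr r m) = 0 := by
  classical
  rw [base, Finset.mem_filter]
  constructor
  · rintro ⟨-, h⟩
    have := h (⟨0, by omega⟩, fun _ => 0)
    rw [aeval_hr] at this
    simpa using this
  · intro h
    refine ⟨Finset.mem_univ _, fun i => ?_⟩
    rw [aeval_hr, h, zero_mul]

theorem qc_sq_val {p : ℕ} [Fact p.Prime] (v : ZMod p) :
    qc p (v ^ 2) = if v = 0 then 0 else 1 := by
  unfold qc
  split_ifs with h
  · simp [h]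
  · rw [quadraticChar_sq_one' h]
    simp

theorem bsum_hr (hD : r + 1 ≤ D) {p : ℕ} [hp : Fact p.Prime] (hrp : r < p) :
    bsum (Fr D r m) (hr D r e m) p = r * (((p : ℝ) - 1) * (p : ℝ) ^ m) := by
  classical
  set S : Finset (ZMod p) := (range r).image fun j : ℕ => (((j : ℤ) + 1 : ℤ) : ZMod p) with hS
  have hcS : S.card = r := by
    rw [hS, Finset.card_image_of_injOn, Finset.card_range]
    intro i hi j hj hij
    simp only [Finset.coe_range, Set.mem_Iio] at hi hj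
    have h1 : ((i + 1 : ℕ) : ZMod p) = ((j + 1 : ℕ) : ZMod p) := by
      simpa using hij
    rw [ZMod.natCast_eq_natCast_iff'] at h1
    rw [Nat.mod_eq_of_lt (by omega), Nat.mod_eq_of_lt (by omega)] at h1
    omega
  set Tt : Fin (m + 1 + 1) → Finset (ZMod p) :=
    Fin.cons S (Fin.cons ({v | v ≠ 0} : Finset (ZMod p)) fun _ => univ) with hTt
  have h1 : bsum (Fr D r m) (Pool.Agent.Y722.ST.hr D r e m) p =
      ((Fintype.piFinset Tt).card : ℝ) := by
    rw [bsum_eq]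
    have h2 : ∀ P ∈ base (Pool.Agent.Y722.ST.hr D r e m) p,
        qc p (MvPolynomial.aeval P (Fr D r m)) = if P 1 = 0 then 0 else 1 := by
      intro P hP
      rw [mem_base_hr hD] at hP
      have h3 : MvPolynomial.aeval P (Fr D r m) = P 1 ^ 2 := by
        simp [Fr, hP]
      rw [h3, qc_sq_val]
    have h5 : ∀ x : ZMod p, (if x = 0 then (0 : ℝ) else 1) = if x ≠ 0 then 1 else 0 := by
      intro x
      split_ifs <;> simp_all
    rw [Finset.sum_congr rfl h2]
    simp only [h5]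
    rw [← Finset.sum_filter, Finset.sum_const, nsmul_eq_mul, mul_one]
    congr 2
    ext P
    rw [Finset.mem_filter, mem_base_hr hD, aeval_wr, Fintype.mem_piFinset,
      Finset.prod_eq_zero_iff]
    constructor
    · rintro ⟨⟨j, hj, hj2⟩, hP1⟩ k
      rcases Fin.eq_zero_or_eq_succ k with rfl | ⟨l, rfl⟩
      · rw [hTt, Fin.cons_zero, hS, Finset.mem_image]
        exact ⟨j, hj, (sub_eq_zero.mp hj2).symm⟩
      · rcases Fin.eq_zero_or_eq_succ l with rfl | ⟨q, rfl⟩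
        · rw [hTt, Fin.cons_succ, Fin.cons_zero, Finset.mem_filter]
          exact ⟨Finset.mem_univ _, hP1⟩
        · rw [hTt, Fin.cons_succ, Fin.cons_succ]
          exact Finset.mem_univ _
    · intro h
      have e0 := h 0
      have e1 := h 1
      rw [hTt, Fin.cons_zero, hS, Finset.mem_image] at e0
      rw [hTt, ← Fin.succ_zero_eq_one, Fin.cons_succ, Fin.cons_zero, Finset.mem_filter] at e1
      obtain ⟨j, hj, hj2⟩ := e0
      exact ⟨⟨j, hj, by rw [hj2, sub_self]⟩, e1.2⟩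
  rw [h1, Fintype.card_piFinset, Fin.prod_univ_succ, Fin.prod_univ_succ]
  simp only [hTt, Fin.cons_zero, Fin.cons_succ, Finset.card_univ, ZMod.card, Finset.prod_const,
    Fintype.card_fin, hcS]
  have h6 : ({v | v ≠ 0} : Finset (ZMod p)).card = p - 1 := by
    rw [Finset.filter_ne', Finset.card_erase_of_mem (Finset.mem_univ _), Finset.card_univ,
      ZMod.card]
  rw [h6]
  push_cast [Nat.cast_sub hp.out.one_lt.le]
  ring

/-- The explicit families with `r` sections. -/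
theorem nagaoExplicit (D r e m : ℕ) (hD : r + 2 ≤ D) (he : 1 ≤ e)
    (P : MvPolynomial (Ex D r e m) ℤ) (hP : P ≠ 0) :
    ∃ C : ℝ, ∀ (H : ℕ) (T : (Ex D r e m → ℤ) → ℕ) (R : (Ex D r e m → ℤ) → Set ℕ),
      (∀ c, 2 ≤ T c ∧ 8 * T c ^ 4 ≤ H) →
      (∀ c, ∀ p ∈ R c, r < p → (p : ℤ) ∣ MvPolynomial.eval c P) →
      ∑ c ∈ box (Ex D r e m) H, nag (Fr D r m) (hr D r e m) r (R c) c (T c) ^ 2 /
        (T c * Real.log (T c) ^ 6) ≤ C * (box (Ex D r e m) H).card := by
  refine nagao (by omega) (Fr D r m) (hr D r e m) (r + 1) r r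
    (fun p hp _ => by have := Fact.mk hp; exact sep_hr hD he p) (fun p hp hge => ?_) P hP
  have := Fact.mk hp
  have hp0 : (0 : ℝ) < p := by exact_mod_cast hp.pos
  have hp1 : (1 : ℝ) ≤ p := by exact_mod_cast hp.one_lt.le
  rw [bsum_hr (by omega) (by omega)]
  have e1 : (r : ℝ) * (((p : ℝ) - 1) * (p : ℝ) ^ m) - r * (p : ℝ) ^ (m + 1) =
      -(r * (p : ℝ) ^ m) := by ring
  rw [e1, abs_neg, abs_of_nonneg (by positivity)]
  have hsp : 0 < Real.sqrt p := Real.sqrt_pos.mpr hp0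
  have h1 : (p : ℝ) ^ m ≤ (p : ℝ) ^ (m + 1) / Real.sqrt p := by
    rw [le_div_iff₀ hsp, pow_succ]
    have h2 : Real.sqrt p ≤ p := by
      rw [Real.sqrt_le_left (by linarith)]
      nlinarith
    gcongr
  gcongr

end explicit

end Pool.Agent.Y722.ST
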