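import Pool.Agent.Y722.ST.Max

/-!
# Sums over primes of centred functions of the reduction: quasi-orthogonality
-/

set_option autoImplicit false
set_option linter.unusedSectionVars false

namespace Pool.Agent.Y722.ST

open Finset Pool.Agent.Y722.HS Pool.Agent.Y722.LS

variable {ι : Type} [Fintype ι] [DecidableEq ι]

/-- Functions of the reduction modulo `p`, as functions of the index `p`. -/
noncomputable def XP (G : ∀ p : ℕ, (ι → ZMod p) → ℝ) (i : ℕ) (c : ι → ℤ) : ℝ :=
  if i.Prime then G i (red i c) else 0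

/-- Centred functions with bounded second moments. -/
structure Cen (K : ℝ) (G : ∀ p : ℕ, (ι → ZMod p) → ℝ) : Prop where
  K0 : 1 ≤ K
  sq : ∀ (p : ℕ) [Fact p.Prime], EM p (fun c => G p c ^ 2) ≤ K
  mean : ∀ (p : ℕ) [Fact p.Prime], EM p (fun c => G p c) = 0

theorem EM_abs_le {K : ℝ} (hK : 1 ≤ K) (p : ℕ) [NeZero p] (g : (ι → ZMod p) → ℝ)
    (h : EM p (fun c => g c ^ 2) ≤ K) : EM p (fun c => |g c|) ≤ K := by
  have h1 : EM p (fun c => |g c|) ≤ EM p (fun c => (1 / 2 : ℝ) * g c ^ 2 + 1 / 2) := by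
    apply EM_mono
    intro c
    have h2 : 0 ≤ (|g c| - 1) ^ 2 := sq_nonneg _
    have h3 : (|g c| - 1) ^ 2 = g c ^ 2 - 2 * |g c| + 1 := by
      rw [sub_sq, sq_abs]; ring
    linarith
  rw [EM_add, EM_mul, EM_const] at h1
  linarith

/-- The off-diagonal terms. -/
theorem off {K : ℝ} (hK : 1 ≤ K) (H b : ℕ) (hb : b ^ 4 ≤ 2 * H + 1)
    (G : ∀ p : ℕ, (ι → ZMod p) → ℝ)
    (hG : ∀ (p : ℕ) [Fact p.Prime], EM p (fun c => G p c ^ 2) ≤ K) (i j : ℕ) (hi : i < b)
    (hj : j < b) (hij : i ≠ j) (hip : i.Prime) (hjp : j.Prime) :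
    haveI := Fact.mk hip
    haveI := Fact.mk hjp
    |EB H (fun c : ι → ℤ => G i (red i c) * G j (red j c)) - EM i (G i) * EM j (G j)| ≤
      2 ^ Fintype.card ι * K ^ 2 * (1 / (b : ℝ) ^ 2) := by
  have := Fact.mk hip
  have := Fact.mk hjp
  have hb0 : (0 : ℝ) < b := by exact_mod_cast (by omega : 0 < b)
  have hb1 : 1 ≤ b := by omega
  have hijb : i * j ≤ b ^ 2 := by
    rw [pow_two]
    exact Nat.mul_le_mul hi.le hj.le
  have hb24 : b ^ 2 ≤ b ^ 4 := Nat.pow_le_pow_right hb1 (by norm_num)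
  have h1 := EB_two (ι := ι) H i j ((Nat.coprime_primes hip hjp).mpr hij) (by omega)
    (fun c => G i c) (fun c => G j c)
  refine h1.trans ?_
  have h2 := EM_abs_le (ι := ι) hK i (G i) (hG i)
  have h3 := EM_abs_le (ι := ι) hK j (G j) (hG j)
  have h4 : (i : ℝ) * j / (2 * H + 1) ≤ 1 / (b : ℝ) ^ 2 := by
    rw [div_le_div_iff₀ (by positivity) (by positivity), one_mul]
    have h5 : (i * j) * b ^ 2 ≤ 2 * H + 1 := by
      calc (i * j) * b ^ 2 ≤ b ^ 2 * b ^ 2 := Nat.mul_le_mul_right _ hijb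
        _ = b ^ 4 := by ring
        _ ≤ _ := hb
    exact_mod_cast h5
  have h5 : EM i (fun r => |G i r|) * EM j (fun r => |G j r|) ≤ K * K :=
    mul_le_mul h2 h3 (EM_nonneg j _ fun c => abs_nonneg _) (by linarith)
  have h6 : 0 ≤ EM i (fun r => |G i r|) * EM j (fun r => |G j r|) :=
    mul_nonneg (EM_nonneg i _ fun c => abs_nonneg _) (EM_nonneg j _ fun c => abs_nonneg _)
  calc _ ≤ 2 ^ Fintype.card ι * (1 / (b : ℝ) ^ 2) * (K * K) := by
        gcongr
    _ = _ := by ring

theorem diag {K : ℝ} (H b : ℕ) (hb : b ^ 4 ≤ 2 * H + 1)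
    (G : ∀ p : ℕ, (ι → ZMod p) → ℝ)
    (hG : ∀ (p : ℕ) [Fact p.Prime], EM p (fun c => G p c ^ 2) ≤ K) (i : ℕ) (hi : i < b)
    (hip : i.Prime) :
    EB H (fun c : ι → ℤ => G i (red i c) * G i (red i c)) ≤ 2 ^ Fintype.card ι * K := by
  have := Fact.mk hip
  have hb1 : 1 ≤ b := by omega
  have hb24 : b ^ 1 ≤ b ^ 4 := Nat.pow_le_pow_right hb1 (by norm_num)
  rw [pow_one] at hb24
  have h1 : (fun c : ι → ℤ => G i (red i c) * G i (red i c)) =
      fun c => (fun r => G i r ^ 2) (red i c) := by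
    funext c
    simp only
    ring
  rw [h1]
  refine (EB_le (ι := ι) H i (by omega) (fun r => G i r ^ 2) (fun r => sq_nonneg _)).trans ?_
  gcongr
  exact hG i

theorem SI_sq_expand (H a b : ℕ) (G : ∀ p : ℕ, (ι → ZMod p) → ℝ) :
    EB H (fun c : ι → ℤ => SI (XP G) a b c ^ 2) =
      ∑ i ∈ Ico a b, ∑ j ∈ Ico a b, EB H (fun c : ι → ℤ => XP G i c * XP G j c) := by
  have h1 : (fun c : ι → ℤ => SI (XP G) a b c ^ 2) =
      fun c => ∑ i ∈ Ico a b, ∑ j ∈ Ico a b, XP G i c * XP G j c := by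
    funext c
    rw [SI, pow_two, Finset.sum_mul_sum]
  rw [h1, EB_sum]
  exact Finset.sum_congr rfl fun i _ => EB_sum _ _ _

/-- **Quasi-orthogonality.** -/
theorem Cen.SI_sq {K : ℝ} {G : ∀ p : ℕ, (ι → ZMod p) → ℝ} (h : Cen K G) (H a b : ℕ)
    (hab : a ≤ b) (hb : b ^ 4 ≤ 2 * H + 1) :
    EB H (fun c : ι → ℤ => SI (XP G) a b c ^ 2) ≤
      (2 ^ Fintype.card ι * K + 2 ^ Fintype.card ι * K ^ 2) * ((b : ℝ) - a) := by
  have hK := h.K0
  rw [SI_sq_expand]
  rcases Nat.eq_zero_or_pos b with rfl | hb0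
  · have : a = 0 := by omega
    subst this
    simp
  have hb0' : (0 : ℝ) < b := by exact_mod_cast hb0
  have hba : ((Ico a b).card : ℝ) = (b : ℝ) - a := by
    rw [Nat.card_Ico, Nat.cast_sub hab]
  have hba' : (b : ℝ) - a ≤ b ^ 2 := by
    have h1 : (1 : ℝ) ≤ b := by exact_mod_cast hb0
    have h2 : (0 : ℝ) ≤ a := by positivity
    nlinarith
  have hba0 : 0 ≤ (b : ℝ) - a := by
    have : (a : ℝ) ≤ b := by exact_mod_cast hab
    linarith
  set E : ℝ := 2 ^ Fintype.card ι * K with hE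
  set F : ℝ := 2 ^ Fintype.card ι * K ^ 2 * (1 / (b : ℝ) ^ 2) with hF
  have hE0 : 0 ≤ E := by positivity
  have hF0 : 0 ≤ F := by positivity
  have h1 : ∀ i ∈ Ico a b, ∀ j ∈ Ico a b,
      EB H (fun c : ι → ℤ => XP G i c * XP G j c) ≤ (if i = j then E else 0) + F := by
    intro i hi j hj
    rw [Finset.mem_Ico] at hi hj
    by_cases hip : i.Prime
    · by_cases hjp : j.Prime
      · haveI := Fact.mk hip
        haveI := Fact.mk hjp
        have e : (fun c : ι → ℤ => XP G i c * XP G j c) =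
            fun c => G i (red i c) * G j (red j c) := by
          funext c; simp [XP, hip, hjp]
        rw [e]
        by_cases hij : i = j
        · subst hij
          rw [if_pos rfl]
          have := diag (ι := ι) H b hb G h.sq i hi.2 hip
          linarith
        · rw [if_neg hij, zero_add]
          have h2 := off (ι := ι) hK H b hb G h.sq i j hi.2 hj.2 hij hip hjp
          rw [show EM i (G i) = 0 from h.mean i, zero_mul, sub_zero] at h2
          exact (le_abs_self _).trans h2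
      · have e : (fun c : ι → ℤ => XP G i c * XP G j c) = fun _ => 0 := by
          funext c; simp [XP, hjp]
        rw [e, EB_const]
        split_ifs <;> linarith
    · have e : (fun c : ι → ℤ => XP G i c * XP G j c) = fun _ => 0 := by
        funext c; simp [XP, hip]
      rw [e, EB_const]
      split_ifs <;> linarith
  calc _ ≤ ∑ i ∈ Ico a b, ∑ j ∈ Ico a b, ((if i = j then E else 0) + F) :=
        Finset.sum_le_sum fun i hi => Finset.sum_le_sum fun j hj => h1 i hi j hj
    _ = ((b : ℝ) - a) * E + ((b : ℝ) - a) * (((b : ℝ) - a) * F) := by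
        simp only [Finset.sum_add_distrib, Finset.sum_const, nsmul_eq_mul, hba]
        congr 1
        rw [Finset.sum_congr rfl fun i hi => Finset.sum_ite_eq (Ico a b) i fun _ => E]
        rw [Finset.sum_congr rfl fun i hi => if_pos hi, Finset.sum_const, nsmul_eq_mul, hba]
    _ ≤ ((b : ℝ) - a) * E + ((b : ℝ) - a) * ((b : ℝ) ^ 2 * F) := by gcongr
    _ = _ := by
        rw [hF, hE]
        field_simp

theorem sum_inv_sqrt' (b : ℕ) : ∑ i ∈ Ico 0 (b + 1), 1 / Real.sqrt i ≤ 2 * Real.sqrt b := by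
  induction b with
  | zero => simp
  | succ b ih =>
    rw [Finset.sum_Ico_succ_top (by omega)]
    have hb0 : (0 : ℝ) < (b : ℝ) + 1 := by positivity
    have h1 : 0 < Real.sqrt ((b : ℝ) + 1) := Real.sqrt_pos.mpr hb0
    have h2 : Real.sqrt b ≤ Real.sqrt ((b : ℝ) + 1) := Real.sqrt_le_sqrt (by linarith)
    have h0 : 0 ≤ Real.sqrt b := Real.sqrt_nonneg _
    have h3 : (Real.sqrt ((b : ℝ) + 1) - Real.sqrt b) *
        (Real.sqrt ((b : ℝ) + 1) + Real.sqrt b) = 1 := by
      have e1 := Real.sq_sqrt (by positivity : (0 : ℝ) ≤ b)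
      have e2 := Real.sq_sqrt hb0.le
      nlinarith
    have h4 : 1 / Real.sqrt ((b : ℝ) + 1) ≤
        2 * (Real.sqrt ((b : ℝ) + 1) - Real.sqrt b) := by
      rw [div_le_iff₀ h1]
      nlinarith [mul_le_mul_of_nonneg_left h2 (sub_nonneg.mpr h2)]
    push_cast
    linarith

theorem sum_inv_sqrt (b : ℕ) : ∑ i ∈ Ico 0 b, 1 / Real.sqrt i ≤ 2 * Real.sqrt b := by
  rcases b with _ | b
  · simp
  · refine (sum_inv_sqrt' b).trans ?_
    have : Real.sqrt b ≤ Real.sqrt ((b + 1 : ℕ) : ℝ) := Real.sqrt_le_sqrt (by push_cast; linarith)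
    linarith

/-- Nonnegative functions with bounded second moments and means at most `K / √p`. -/
structure Pos (K : ℝ) (G : ∀ p : ℕ, (ι → ZMod p) → ℝ) : Prop where
  K0 : 1 ≤ K
  nn : ∀ (p : ℕ) (c : ι → ZMod p), 0 ≤ G p c
  sq : ∀ (p : ℕ) [Fact p.Prime], EM p (fun c => G p c ^ 2) ≤ K
  mean : ∀ (p : ℕ) [Fact p.Prime], EM p (fun c => G p c) ≤ K / Real.sqrt p

theorem Pos.SI_sq {K : ℝ} {G : ∀ p : ℕ, (ι → ZMod p) → ℝ} (h : Pos K G) (H b : ℕ)
    (hb : b ^ 4 ≤ 2 * H + 1) :
    EB H (fun c : ι → ℤ => SI (XP G) 0 b c ^ 2) ≤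
      (2 ^ Fintype.card ι * K + (2 ^ Fintype.card ι * K ^ 2 + 4 * K ^ 2)) * (b : ℝ) := by
  have hK := h.K0
  rw [SI_sq_expand]
  rcases Nat.eq_zero_or_pos b with rfl | hb0
  · simp
  have hb0' : (0 : ℝ) < b := by exact_mod_cast hb0
  have hb1' : (1 : ℝ) ≤ b := by exact_mod_cast hb0
  have hba : ((Ico 0 b).card : ℝ) = (b : ℝ) := by
    rw [Nat.card_Ico, Nat.sub_zero]
  set E : ℝ := 2 ^ Fintype.card ι * K with hE
  set F : ℝ := 2 ^ Fintype.card ι * K ^ 2 * (1 / (b : ℝ) ^ 2) with hF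
  have hE0 : 0 ≤ E := by positivity
  have hF0 : 0 ≤ F := by positivity
  have h1 : ∀ i ∈ Ico 0 b, ∀ j ∈ Ico 0 b,
      EB H (fun c : ι → ℤ => XP G i c * XP G j c) ≤
        (if i = j then E else 0) + (F + (K * (1 / Real.sqrt i)) * (K * (1 / Real.sqrt j))) := by
    intro i hi j hj
    rw [Finset.mem_Ico] at hi hj
    have h0 : 0 ≤ (K * (1 / Real.sqrt i)) * (K * (1 / Real.sqrt j)) := by positivity
    by_cases hip : i.Prime
    · by_cases hjp : j.Prime
      · haveI := Fact.mk hip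
        haveI := Fact.mk hjp
        have e : (fun c : ι → ℤ => XP G i c * XP G j c) =
            fun c => G i (red i c) * G j (red j c) := by
          funext c; simp [XP, hip, hjp]
        rw [e]
        by_cases hij : i = j
        · subst hij
          rw [if_pos rfl]
          have := diag (ι := ι) H b hb G h.sq i hi.2 hip
          linarith
        · rw [if_neg hij, zero_add]
          have h2 := off (ι := ι) hK H b hb G h.sq i j hi.2 hj.2 hij hip hjp
          have h3 : EM i (G i) * EM j (G j) ≤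
              (K * (1 / Real.sqrt i)) * (K * (1 / Real.sqrt j)) := by
            have e3 : EM i (G i) ≤ K * (1 / Real.sqrt i) := by
              have := h.mean i
              rwa [mul_one_div]
            have e4 : EM j (G j) ≤ K * (1 / Real.sqrt j) := by
              have := h.mean j
              rwa [mul_one_div]
            exact mul_le_mul e3 e4 (EM_nonneg j _ fun c => h.nn j c) (by positivity)
          have h4 := (abs_le.mp h2).2
          linarith
      · have e : (fun c : ι → ℤ => XP G i c * XP G j c) = fun _ => 0 := by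
          funext c; simp [XP, hjp]
        rw [e, EB_const]
        split_ifs <;> linarith
    · have e : (fun c : ι → ℤ => XP G i c * XP G j c) = fun _ => 0 := by
        funext c; simp [XP, hip]
      rw [e, EB_const]
      split_ifs <;> linarith
  calc _ ≤ ∑ i ∈ Ico 0 b, ∑ j ∈ Ico 0 b, ((if i = j then E else 0) +
        (F + (K * (1 / Real.sqrt i)) * (K * (1 / Real.sqrt j)))) :=
        Finset.sum_le_sum fun i hi => Finset.sum_le_sum fun j hj => h1 i hi j hj
    _ = (b : ℝ) * E + ((b : ℝ) * ((b : ℝ) * F) +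
        (K * ∑ i ∈ Ico 0 b, 1 / Real.sqrt i) * (K * ∑ i ∈ Ico 0 b, 1 / Real.sqrt i)) := by
        simp only [Finset.sum_add_distrib, Finset.sum_const, nsmul_eq_mul, hba]
        congr 1
        · rw [Finset.sum_congr rfl fun i hi => Finset.sum_ite_eq (Ico 0 b) i fun _ => E]
          rw [Finset.sum_congr rfl fun i hi => if_pos hi, Finset.sum_const, nsmul_eq_mul, hba]
        · congr 1
          rw [Finset.mul_sum, Finset.sum_mul_sum]
    _ ≤ (b : ℝ) * E + ((b : ℝ) * ((b : ℝ) * F) +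
        (K * (2 * Real.sqrt b)) * (K * (2 * Real.sqrt b))) := by
        have h5 := sum_inv_sqrt b
        have h6 : 0 ≤ ∑ i ∈ Ico 0 b, 1 / Real.sqrt (i : ℝ) :=
          Finset.sum_nonneg fun i _ => by positivity
        gcongr
    _ = (b : ℝ) * E + b * (b * F) + 4 * K ^ 2 * b := by
        have h7 := Real.mul_self_sqrt hb0'.le
        linear_combination (4 * K ^ 2) * h7
    _ ≤ (b : ℝ) * E + b * (b ^ 2 * F) + 4 * K ^ 2 * b := by
        have : (b : ℝ) ≤ b ^ 2 := by nlinarith
        gcongr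
    _ = _ := by
        rw [hF, hE]
        field_simp
        ring

end Pool.Agent.Y722.ST
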