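import Pool.Agent.Y722.ST.Lin
import Pool.Agent.Y722.ST.Abel
import Pool.Agent.Y722.PC.Plane

/-!
# Products of random plane curves and a fixed variety: the traces on `H²` over the primes
-/

set_option autoImplicit false
set_option linter.unusedSectionVars false

namespace Pool.Agent.Y722.ST

open Finset Pool.Agent.Y722.HS Pool.Agent.Y722.LS Pool.Agent.Y722.PC

section
variable {k r : ℕ} {ι : Fin k → Type} [∀ i, Fintype (ι i)] [∀ i, DecidableEq (ι i)]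

/-- All curves `C_i : ∑ c ⟨i, j⟩ f i j = 0` are smooth modulo the prime `p`. -/
def GoodC (f : ∀ i, ι i → MvPolynomial (Fin 3) ℤ) (c : (Σ i, ι i) → ℤ) (p : ℕ) : Prop :=
  p.Prime ∧ ∀ i, Good (n := 2) (f i) (fun j => c ⟨i, j⟩) p

/-- `(∑_{i < j} a_p(C_{σ i}) a_p(C_{σ j})) / p + w_p ∑ a_p(C_{σ i}) / √p`. -/
noncomputable def zz (f : ∀ i, ι i → MvPolynomial (Fin 3) ℤ) (σ : Fin r → Fin k) (w : ℕ → ℝ)
    (p : ℕ) (c : (Σ i, ι i) → ZMod p) : ℝ :=
  (∑ q ∈ prs r, tr (f (σ q.1)) p (fun j => c ⟨σ q.1, j⟩) *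
    tr (f (σ q.2)) p (fun j => c ⟨σ q.2, j⟩)) / p +
  w p * (∑ i, tr (f (σ i)) p (fun j => c ⟨σ i, j⟩)) / Real.sqrt p

open Classical in
/-- The sum of `(zz - e) log p` over the primes `p < T` at which all curves are smooth. -/
noncomputable def dvC (f : ∀ i, ι i → MvPolynomial (Fin 3) ℤ) (σ : Fin r → Fin k) (w : ℕ → ℝ)
    (c : (Σ i, ι i) → ℤ) (T : ℕ) : ℝ :=
  ∑ p ∈ range T with GoodC f c p, (zz f σ w p (red p c) - eqPairs σ) * Real.log p

variable {f : ∀ i, ι i → MvPolynomial (Fin 3) ℤ} {d : Fin k → ℕ} {C0 : ℝ}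

theorem zz_eq (σ : Fin r → Fin k) (w : ℕ → ℝ) (p : ℕ) [Fact p.Prime]
    (c : (Σ i, ι i) → ZMod p) : zz f σ w p c = (1 / (p : ℝ)) * ∑ q ∈ prs r, nq f σ p q c +
      (eqPairs σ : ℝ) + (-(w p / Real.sqrt p)) * ∑ i, tt (f (σ i)) p (fun j => c ⟨σ i, j⟩) := by
  have hp0 : (0 : ℝ) < p := by exact_mod_cast (Fact.out : p.Prime).pos
  have h3 : ∑ q ∈ prs r, nq f σ p q c =
      ∑ q ∈ prs r, tr (f (σ q.1)) p (fun j => c ⟨σ q.1, j⟩) *
        tr (f (σ q.2)) p (fun j => c ⟨σ q.2, j⟩) - eqPairs σ * p := by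
    unfold nq
    rw [Finset.sum_sub_distrib]
    congr 1
    · refine Finset.sum_congr rfl fun q _ => ?_
      rw [tr_eq, tr_eq]
      ring
    · rw [← Finset.sum_filter, Finset.sum_const, nsmul_eq_mul]
      rfl
  have h4 : ∑ i, tr (f (σ i)) p (fun j => c ⟨σ i, j⟩) =
      -∑ i, tt (f (σ i)) p (fun j => c ⟨σ i, j⟩) := by
    rw [← Finset.sum_neg_distrib]
    exact Finset.sum_congr rfl fun i _ => tr_eq _ _ _
  unfold zz
  rw [h3, h4]
  field_simp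
  ring

theorem dat_zz (hC0 : 0 ≤ C0) (σ : Fin r → Fin k) (p0 : ℕ)
    (hf : ∀ i j, (f i j).IsHomogeneous (d i))
    (hs : ∀ i, ∀ p : ℕ, p.Prime → p0 ≤ p → Separates4 (n := 2) (f i) p)
    (hZ : ∀ i, ∀ p : ℕ, p.Prime → p0 ≤ p → (bcone (n := 2) (f i) p : ℝ) ≤ C0 * p) (B : ℝ)
    (hB : 0 ≤ B) : ∃ K : ℝ, 1 ≤ K ∧ ∀ w : ℕ → ℝ, (∀ p, |w p| ≤ B) →
      Dat K p0 (fun p (c : (Σ i, ι i) → ZMod p) => zz f σ w p c) (eqPairs σ) := by
  have t3 : (0 : ℝ) ≤ (prs r).card * (2 * (1 + C0) ^ 2) := by positivity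
  have t4 : (0 : ℝ) ≤ (prs r).card * ((prs r).card * (98 + 16 * (1 + C0) ^ 4)) := by positivity
  set A1 : ℝ := (prs r).card * (2 * (1 + C0) ^ 2) with hA1
  set A2 : ℝ := (prs r).card * ((prs r).card * (98 + 16 * (1 + C0) ^ 4)) with hA2
  set A3 : ℝ := B * (r * (1 + C0)) with hA3
  set A4 : ℝ := B ^ 2 * (r * (r * (1 + (1 + C0) ^ 2))) with hA4
  have t5 : 0 ≤ A3 := by positivity
  have t6 : 0 ≤ A4 := by positivity
  refine ⟨1 + A1 + A3 + (3 * A2 + 3 * (eqPairs σ : ℝ) ^ 2 + 3 * A4), by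
    nlinarith [sq_nonneg (eqPairs σ : ℝ)], fun w hw => ⟨by
    nlinarith [sq_nonneg (eqPairs σ : ℝ)], ?_, ?_⟩⟩
  · intro p hpF hge
    have hp := hpF.out
    have hp0 : (0 : ℝ) < p := by exact_mod_cast hp.pos
    have hp1 : (1 : ℝ) ≤ p := by exact_mod_cast hp.one_lt.le
    have hsp : 0 < Real.sqrt p := Real.sqrt_pos.mpr hp0
    have h1 : EM p (fun c : (Σ i, ι i) → ZMod p => zz f σ w p c ^ 2) ≤
        EM p (fun c => (3 / (p : ℝ) ^ 2 * (prs r).card) * ∑ q ∈ prs r, nq f σ p q c ^ 2 +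
          (3 * (eqPairs σ : ℝ) ^ 2 + (3 * (B ^ 2 / p) * r) *
            ∑ i, tt (f (σ i)) p (fun j => c ⟨σ i, j⟩) ^ 2)) := by
      apply EM_mono
      intro c
      rw [zz_eq]
      have h2 := sq_sum_le_card_mul_sum_sq (s := prs r) (f := fun q => nq f σ p q c)
      have h3 := sq_sum_le_card_mul_sum_sq (s := (Finset.univ : Finset (Fin r)))
        (f := fun i => tt (f (σ i)) p (fun j => c ⟨σ i, j⟩))
      rw [Finset.card_univ, Fintype.card_fin] at h3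
      set a := ∑ q ∈ prs r, nq f σ p q c
      set b := ∑ i, tt (f (σ i)) p (fun j => c ⟨σ i, j⟩)
      have h4 : (1 / (p : ℝ) * a + (eqPairs σ : ℝ) + -(w p / Real.sqrt p) * b) ^ 2 ≤
          3 * (1 / (p : ℝ) * a) ^ 2 + 3 * (eqPairs σ : ℝ) ^ 2 +
            3 * (-(w p / Real.sqrt p) * b) ^ 2 := by
        nlinarith [sq_nonneg (1 / (p : ℝ) * a - (eqPairs σ : ℝ)),
          sq_nonneg (1 / (p : ℝ) * a - -(w p / Real.sqrt p) * b),
          sq_nonneg ((eqPairs σ : ℝ) - -(w p / Real.sqrt p) * b)]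
      have h5 : 3 * (1 / (p : ℝ) * a) ^ 2 ≤
          (3 / (p : ℝ) ^ 2 * (prs r).card) * ∑ q ∈ prs r, nq f σ p q c ^ 2 := by
        calc 3 * (1 / (p : ℝ) * a) ^ 2 = 3 / (p : ℝ) ^ 2 * a ^ 2 := by ring
          _ ≤ 3 / (p : ℝ) ^ 2 * ((prs r).card * ∑ q ∈ prs r, nq f σ p q c ^ 2) := by gcongr
          _ = _ := by ring
      have h6 : (w p) ^ 2 ≤ B ^ 2 := by
        rw [← sq_abs]
        gcongr
        exact hw p
      have h7 : 3 * (-(w p / Real.sqrt p) * b) ^ 2 ≤ (3 * (B ^ 2 / p) * r) *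
          ∑ i, tt (f (σ i)) p (fun j => c ⟨σ i, j⟩) ^ 2 := by
        have e : (-(w p / Real.sqrt p) * b) ^ 2 = w p ^ 2 / p * b ^ 2 := by
          rw [mul_pow, neg_sq, div_pow, Real.sq_sqrt hp0.le]
        rw [e]
        calc 3 * (w p ^ 2 / p * b ^ 2) ≤ 3 * (B ^ 2 / p *
              (r * ∑ i, tt (f (σ i)) p (fun j => c ⟨σ i, j⟩) ^ 2)) := by gcongr
          _ = _ := by ring
      linarith
    refine h1.trans ?_
    rw [EM_add, EM_add, EM_const, EM_mul, EM_mul, PC.EM_sum, PC.EM_sum]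
    have h8 : ∑ q ∈ prs r, EM p (fun c : (Σ i, ι i) → ZMod p => nq f σ p q c ^ 2) ≤
        ∑ _q ∈ prs r, (98 + 16 * (1 + C0) ^ 4) * (p : ℝ) ^ 2 :=
      Finset.sum_le_sum fun q _ => sq_nq hC0 σ p hf (fun i => hs i p hp hge)
        (fun i => hZ i p hp hge) q
    rw [Finset.sum_const, nsmul_eq_mul] at h8
    have h9 : ∑ i : Fin r, EM p (fun c : (Σ i, ι i) → ZMod p =>
        tt (f (σ i)) p (fun j => c ⟨σ i, j⟩) ^ 2) ≤ ∑ _i : Fin r, (p * (1 + (1 + C0) ^ 2)) := by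
      refine Finset.sum_le_sum fun i _ => ?_
      rw [EM_one p (σ i) (fun x => tt (f (σ i)) p x ^ 2), EM_tt_sq (hf (σ i)) (hs (σ i) p hp hge)]
      obtain ⟨m0, m1⟩ := mu_bd (f := f (σ i)) (p := p) hC0 (hZ (σ i) p hp hge)
      have hb0 : (0 : ℝ) ≤ (bcone (n := 2) (f (σ i)) p : ℝ) := by positivity
      have e1 : ((p : ℝ) ^ 3 - 1 - (bcone (n := 2) (f (σ i)) p : ℝ)) / (p : ℝ) ^ 2 ≤ p := by
        rw [div_le_iff₀ (by positivity)]
        nlinarith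
      have e2 : PC.mu (f (σ i)) p ^ 2 ≤ (1 + C0) ^ 2 := by gcongr
      nlinarith [sq_nonneg (1 + C0)]
    rw [Finset.sum_const, nsmul_eq_mul, Finset.card_univ, Fintype.card_fin] at h9
    have e3 : 3 / (p : ℝ) ^ 2 * (prs r).card *
        ∑ q ∈ prs r, EM p (fun c : (Σ i, ι i) → ZMod p => nq f σ p q c ^ 2) ≤ 3 * A2 := by
      calc _ ≤ 3 / (p : ℝ) ^ 2 * (prs r).card *
            ((prs r).card * ((98 + 16 * (1 + C0) ^ 4) * (p : ℝ) ^ 2)) := by gcongr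
        _ = _ := by
            rw [hA2]
            field_simp
    have e4 : 3 * (B ^ 2 / p) * r * ∑ i : Fin r, EM p (fun c : (Σ i, ι i) → ZMod p =>
        tt (f (σ i)) p (fun j => c ⟨σ i, j⟩) ^ 2) ≤ 3 * A4 := by
      calc _ ≤ 3 * (B ^ 2 / p) * r * (r * (p * (1 + (1 + C0) ^ 2))) := by gcongr
        _ = _ := by
            rw [hA4]
            field_simp
    linarith
  · intro p hpF hge
    have hp := hpF.out
    have hp0 : (0 : ℝ) < p := by exact_mod_cast hp.pos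
    have hp1 : (1 : ℝ) ≤ p := by exact_mod_cast hp.one_lt.le
    have hsp : 0 < Real.sqrt p := Real.sqrt_pos.mpr hp0
    have hsp1 : Real.sqrt p ≤ p := by
      rw [Real.sqrt_le_left (by linarith)]
      nlinarith
    have h1 : (fun c : (Σ i, ι i) → ZMod p => zz f σ w p c) = fun c =>
        ((1 / (p : ℝ)) * ∑ q ∈ prs r, nq f σ p q c + (eqPairs σ : ℝ)) +
          (-(w p / Real.sqrt p)) * ∑ i, tt (f (σ i)) p (fun j => c ⟨σ i, j⟩) := by
      funext c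
      rw [zz_eq]
    rw [h1, EM_add, EM_add, EM_mul, EM_mul, EM_const, PC.EM_sum, PC.EM_sum]
    have h2 : |∑ q ∈ prs r, EM p (fun c : (Σ i, ι i) → ZMod p => nq f σ p q c)| ≤
        ∑ _q ∈ prs r, 2 * (1 + C0) ^ 2 :=
      (Finset.abs_sum_le_sum_abs _ _).trans (Finset.sum_le_sum fun q _ =>
        mean_nq hC0 σ p hf (fun i => hs i p hp hge) (fun i => hZ i p hp hge) q)
    rw [Finset.sum_const, nsmul_eq_mul] at h2
    have h3 : |∑ i : Fin r, EM p (fun c : (Σ i, ι i) → ZMod p =>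
        tt (f (σ i)) p (fun j => c ⟨σ i, j⟩))| ≤ ∑ _i : Fin r, (1 + C0) := by
      refine (Finset.abs_sum_le_sum_abs _ _).trans (Finset.sum_le_sum fun i _ => ?_)
      rw [EM_one p (σ i) (fun x => tt (f (σ i)) p x), EM_tt]
      obtain ⟨m0, m1⟩ := mu_bd (f := f (σ i)) (p := p) hC0 (hZ (σ i) p hp hge)
      rwa [abs_of_nonneg m0]
    rw [Finset.sum_const, nsmul_eq_mul, Finset.card_univ, Fintype.card_fin] at h3
    set a := ∑ q ∈ prs r, EM p (fun c : (Σ i, ι i) → ZMod p => nq f σ p q c)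
    set b := ∑ i : Fin r, EM p (fun c : (Σ i, ι i) → ZMod p =>
        tt (f (σ i)) p (fun j => c ⟨σ i, j⟩))
    have e : 1 / (p : ℝ) * a + (eqPairs σ : ℝ) + -(w p / Real.sqrt p) * b - (eqPairs σ : ℝ) =
        1 / (p : ℝ) * a - (w p / Real.sqrt p) * b := by ring
    rw [e]
    refine (abs_sub _ _).trans ?_
    rw [abs_mul, abs_mul, abs_of_pos (by positivity : 0 < 1 / (p : ℝ)), abs_div, abs_of_pos hsp]
    have e1 : 1 / (p : ℝ) * |a| ≤ A1 / Real.sqrt p := by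
      calc 1 / (p : ℝ) * |a| ≤ 1 / Real.sqrt p * A1 := by
            gcongr
        _ = _ := by ring
    have e2 : |w p| / Real.sqrt p * |b| ≤ A3 / Real.sqrt p := by
      calc |w p| / Real.sqrt p * |b| ≤ B / Real.sqrt p * (r * (1 + C0)) := by
            gcongr
            exact hw p
        _ = _ := by ring
    calc _ ≤ A1 / Real.sqrt p + A3 / Real.sqrt p := by linarith
      _ = (A1 + A3) / Real.sqrt p := by ring
      _ ≤ _ := by
          apply div_le_div_of_nonneg_right _ hsp.le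
          nlinarith [sq_nonneg (eqPairs σ : ℝ)]

theorem good_prod {P : ∀ i, MvPolynomial (ι i) ℤ}
    (hP : ∀ i, ∀ (K : Type) [Field K] (c : ι i → K),
      MvPolynomial.eval₂ (Int.castRingHom K) c (P i) ≠ 0 → IsSmooth (lform (n := 2) (f i) c))
    (c : (Σ i, ι i) → ℤ) (p : ℕ) (hp : p.Prime)
    (hb : BZ (∏ i, MvPolynomial.rename (fun j => (⟨i, j⟩ : Σ i, ι i)) (P i)) p (red p c) = 0) :
    GoodC f c p := by
  classical
  have := Fact.mk hp
  refine ⟨hp, fun i => good_of (hP i) _ p hp ?_⟩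
  have hb2 : MvPolynomial.eval₂ (Int.castRingHom (ZMod p)) (red p c)
      (∏ i, MvPolynomial.rename (fun j => (⟨i, j⟩ : Σ i, ι i)) (P i)) ≠ 0 := by
    intro h0
    rw [BZ, if_pos h0] at hb
    norm_num at hb
  rw [← MvPolynomial.coe_eval₂Hom, map_prod, Finset.prod_ne_zero_iff] at hb2
  have h1 := hb2 i (Finset.mem_univ i)
  rw [MvPolynomial.coe_eval₂Hom, MvPolynomial.eval₂_rename] at h1
  unfold BZ
  exact if_neg h1

theorem tauberProd (hd : ∀ i, 1 ≤ d i) (hf : ∀ i j, (f i j).IsHomogeneous (d i))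
    (c0 : ∀ i, ι i → ℤ) (hsm : ∀ i, IsSmooth (lform (n := 2) (f i) (fun j => (c0 i j : ℂ))))
    (p0 : ℕ) (hs : ∀ i, ∀ p : ℕ, p.Prime → p0 ≤ p → Separates4 (n := 2) (f i) p)
    (hZ : ∀ i, ∀ p : ℕ, p.Prime → p0 ≤ p → (bcone (n := 2) (f i) p : ℝ) ≤ C0 * p)
    (σ : Fin r → Fin k) (B : ℝ) : ∃ C : ℝ, ∀ w : ℕ → ℝ, (∀ p, |w p| ≤ B) →
      ∀ (H : ℕ) (T : ((Σ i, ι i) → ℤ) → ℕ), (∀ c, 2 ≤ T c ∧ 8 * T c ^ 4 ≤ H) →
      ∑ c ∈ box (Σ i, ι i) H, dvC f σ w c (T c) ^ 2 / (T c * Real.log (T c) ^ 6) ≤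
        C * (box (Σ i, ι i) H).card := by
  classical
  choose P hP0 hP using fun i => exists_disc (n := 2) (f i) (hd i) (hf i) (c0 i) (hsm i)
  have hZ' : ∀ i, ∀ p : ℕ, p.Prime → p0 ≤ p → (bcone (n := 2) (f i) p : ℝ) ≤ |C0| * p := by
    intro i p hp h
    refine (hZ i p hp h).trans ?_
    gcongr
    exact le_abs_self C0
  obtain ⟨K, hK1, hK⟩ := dat_zz (abs_nonneg C0) σ p0 hf hs hZ' |B| (abs_nonneg B)
  obtain ⟨M1, hM10, hM1⟩ := bound_small p0
    (fun p (c : (Σ i, ι i) → ZMod p) => zz f σ (fun _ => 0) p c) (eqPairs σ)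
  obtain ⟨M2, hM20, hM2⟩ := bound_small p0
    (fun p (c : (Σ i, ι i) → ZMod p) =>
      (∑ i, tr (f (σ i)) p (fun j => c ⟨σ i, j⟩)) / Real.sqrt p) 0
  set c0' : (Σ i, ι i) → ℤ := fun s => c0 s.1 s.2 with hc0'
  set P' : MvPolynomial (Σ i, ι i) ℤ :=
    ∏ i, MvPolynomial.rename (fun j => (⟨i, j⟩ : Σ i, ι i)) (P i) with hP'
  have hP'0 : MvPolynomial.eval c0' P' ≠ 0 := by
    rw [hP', map_prod, Finset.prod_ne_zero_iff]
    intro i _
    rw [MvPolynomial.eval_rename]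
    exact hP0 i
  obtain ⟨C, hC, hCC⟩ := effective (ι := (Σ i, ι i)) K (M1 + |B| * M2) hK1 (by positivity) p0
    P' c0' hP'0
  refine ⟨36 * C, fun w hw H T hT => ?_⟩
  have hw' : ∀ p, |w p| ≤ |B| := fun p => (hw p).trans (le_abs_self B)
  obtain ⟨Φ, hΦ0, hΦ, hΦ'⟩ := hCC _ _ (hK w hw') (by
    intro p hp hlt c
    have e : zz f σ w p c - (eqPairs σ : ℝ) = (zz f σ (fun _ => 0) p c - (eqPairs σ : ℝ)) +
        w p * ((∑ i, tr (f (σ i)) p (fun j => c ⟨σ i, j⟩)) / Real.sqrt p - 0) := by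
      unfold zz
      ring
    rw [e]
    refine (abs_add_le _ _).trans ?_
    rw [abs_mul]
    have h1 := hM1 p hp hlt c
    have h2 := hM2 p hp hlt c
    have h3 := hw' p
    gcongr) H
  have h1 : ∀ c ∈ box (Σ i, ι i) H, dvC f σ w c (T c) ^ 2 / (T c * Real.log (T c) ^ 6) ≤
      36 * Φ c := by
    intro c _
    obtain ⟨h2, h3⟩ := hT c
    have hT0 : (0 : ℝ) < T c := by exact_mod_cast (by omega : 0 < T c)
    have hl : 0 < Real.log (T c) := Real.log_pos (by exact_mod_cast (by omega : 1 < T c))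
    set a : ℕ → ℝ := fun p => if p.Prime ∧ GoodC f c p then
      zz f σ w p (red p c) - (eqPairs σ : ℝ) else 0 with ha
    have e1 : dvC f σ w c (T c) = ∑ p ∈ range (T c), a p * Real.log p := by
      rw [dvC, Finset.sum_filter]
      refine Finset.sum_congr rfl fun p _ => ?_
      by_cases hg : GoodC f c p
      · simp only [ha, if_pos hg, if_pos (⟨hg.1, hg⟩ : p.Prime ∧ GoodC f c p)]
      · simp only [ha, if_neg hg, if_neg (fun h : p.Prime ∧ GoodC f c p => hg h.2), zero_mul]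
    have h5 := abel_log a (by simp [ha, Nat.not_prime_zero]) (by simp [ha, Nat.not_prime_one])
      (Φ c) (T c) h2 (by
      intro t ht htT
      have h6 := hΦ' c (GoodC f c) (fun p hp _ hbz => good_prod hP c p hp hbz) t ht (by
          have : t ^ 4 ≤ T c ^ 4 := Nat.pow_le_pow_left htT 4
          omega)
      have e2 : ∑ i ∈ range t, a i =
          DD (fun p (c : (Σ i, ι i) → ZMod p) => zz f σ w p c) (eqPairs σ) (GoodC f c) c t := by
        rw [DD]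
      rw [e2]
      exact h6)
    rw [e1, div_le_iff₀ (by positivity)]
    refine h5.trans (le_of_eq ?_)
    ring
  refine (Finset.sum_le_sum h1).trans ?_
  rw [← Finset.mul_sum]
  rw [EB, div_le_iff₀ (by positivity)] at hΦ
  rw [card_box]
  linarith

end

/-- All plane curves of degrees `d i ≥ 3`. -/
theorem tauberPlane {k r : ℕ} (d : Fin k → ℕ) (hd : ∀ i, 3 ≤ d i) (σ : Fin r → Fin k) (B : ℝ) :
    ∃ C : ℝ, ∀ w : ℕ → ℝ, (∀ p, |w p| ≤ B) →
      ∀ (H : ℕ) (T : ((Σ i, Mon 2 (d i)) → ℤ) → ℕ), (∀ c, 2 ≤ T c ∧ 8 * T c ^ 4 ≤ H) →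
      ∑ c ∈ box (Σ i, Mon 2 (d i)) H, dvC (fun i (μ : Mon 2 (d i)) => monp μ) σ w c (T c) ^ 2 /
        (T c * Real.log (T c) ^ 6) ≤ C * (box (Σ i, Mon 2 (d i)) H).card :=
  tauberProd (d := d) (C0 := 0) (fun i => by have := hd i; omega) (fun i μ => monp_hom μ)
    (fun i => fermat 2 (d i) ℤ) (fun i => smooth_fermat (d i) (by have := hd i; omega)) 0
    (fun i p hp _ => by have := Fact.mk hp; exact separates4_monp (d i) (hd i) p)
    (fun i p hp _ => by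
      have := Fact.mk hp
      rw [bcone_monp]
      simp) σ B

end Pool.Agent.Y722.ST
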